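import Mathlib
import Pool.Agent.Helper126.Sus.Forc
import Pool.Agent.W876.Two.Gen

/-!
# Psi-spaces in the forcing language

`K` is a set of the ground model, `A` names a family of subsets of `ℕ` indexed by `K`. The points
of the Psi-space of the family are the members of `ℕ ⊕ K`: the point `Sum.inl n` is the natural
number `n`, the point `Sum.inr j` is the member `A j` of the family.
-/

namespace Pool.Agent.W876.Sel

open Cardinal Pool.Agent.Helper126.Sus.Forc

open Pool.Agent.W876.Two.Gen (IsFun)

variable {P : Type} [Preorder P] {K : Type}

/-- The subset `X` of `ℕ` is infinite. -/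
def IsInfinite (X : ℕ → Set P) : Set P :=
  fall fun m => fex fun n => fand (fground (m ≤ n)) (meets (X n))

/-- The subsets `X` and `Y` of `ℕ` have a finite intersection. -/
def FiniteMeet (X Y : ℕ → Set P) : Set P :=
  fex fun m => fall fun n => fimp (fand (meets (X n)) (meets (Y n))) (fground (n < m))

/-- The sets `A j` are infinite and `A i`, `A j` are almost disjoint whenever `i ≠ j`: they form an
almost disjoint family of cardinality `#K`. -/
def IsAD (A : K → ℕ → Set P) : Set P :=
  fand (fall fun j => IsInfinite (A j))
    (fall fun i => fall fun j => fall fun _ : i ≠ j => FiniteMeet (A i) (A j))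

/-- The subset `V` of the Psi-space is open: if it contains the point `A j`, then it contains all
but finitely many elements of the set `A j`. -/
def IsOpenPsi (A : K → ℕ → Set P) (V : ℕ ⊕ K → Set P) : Set P :=
  fall fun j => fimp (meets (V (Sum.inr j))) (fex fun m => fall fun n =>
    fimp (fand (fground (m ≤ n)) (meets (A j n))) (meets (V (Sum.inl n))))

/-- The sets `U i` form an open cover of the Psi-space. -/
def IsOpenCover (A : K → ℕ → Set P) {ι : Type} (U : ι → ℕ ⊕ K → Set P) : Set P :=
  fand (fall fun i => IsOpenPsi A (U i)) (fall fun x => fex fun i => meets (U i x))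

/-- The set `D` is dense: it meets every open set which is not empty. -/
def IsDensePsi (A : K → ℕ → Set P) (D : ℕ ⊕ K → Set P) : Set P :=
  fall fun V : ℕ ⊕ K → Set P => fimp (fand (IsOpenPsi A V) (fex fun x => meets (V x)))
    (fex fun x => fand (meets (V x)) (meets (D x)))

/-- The set `F` is closed: its complement is open. -/
def IsClosedPsi (A : K → ℕ → Set P) (F : ℕ ⊕ K → Set P) : Set P :=
  IsOpenPsi A fun x => fnot (meets (F x))

/-- The set `F` is discrete: every point `x` of `F` has an open neighbourhood `V` which contains no
other point of `F`. -/
def IsDiscretePsi (A : K → ℕ → Set P) (F : ℕ ⊕ K → Set P) : Set P :=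
  fall fun x => fimp (meets (F x)) (fex fun V : ℕ ⊕ K → Set P =>
    fand (IsOpenPsi A V) (fand (meets (V x))
      (fall fun y => fimp (fand (meets (V y)) (meets (F y))) (fground (y = x)))))

/-- The Psi-space of `A` is selectively (a): for every sequence `U n` of open covers and every
dense set `D` there are closed discrete sets `F n ⊆ D` such that every point `y` belongs, for some
`n`, to a member of `U n` which meets `F n`. -/
def SelectivelyA (A : K → ℕ → Set P) : Set P :=
  fall fun ι : Type => fall fun U : ℕ → ι → ℕ ⊕ K → Set P => fall fun D : ℕ ⊕ K → Set P =>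
    fimp (fand (fall fun n => IsOpenCover A (U n)) (IsDensePsi A D))
      (fex fun F : ℕ → ℕ ⊕ K → Set P =>
        fand (fall fun n => fall fun x => fimp (meets (F n x)) (meets (D x)))
          (fand (fall fun n => fand (IsClosedPsi A (F n)) (IsDiscretePsi A (F n)))
            (fall fun y => fex fun n => fex fun i => fand (meets (U n i y))
              (fex fun x => fand (meets (F n x)) (meets (U n i x))))))

/-- The functions `g β` form a dominating family: every function `f` from `ℕ` to `ℕ` is eventually
below one of them. -/
def IsDominating (g : K → ℕ → ℕ → Set P) : Set P :=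
  fand (fall fun β => IsFun (g β))
    (fall fun f : ℕ → ℕ → Set P => fimp (IsFun f) (fex fun β => fex fun m =>
      fall fun n => fall fun a => fall fun b =>
        fimp (fand (fground (m ≤ n)) (fand (meets (f n a)) (meets (g β n b))))
          (fground (a ≤ b))))

end Pool.Agent.W876.Sel
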