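import Mathlib
import Pool.Agent.Helper126.Sus.Forc
import Pool.Agent.W876.Two.Gen

/-!
# Selectively (a) almost disjoint families: the conditions

The forcing adds, for `j < ω₁`, subsets `A_j` of `ℕ` (indexed by `inl j`), for `γ < ω₁` dominating
functions `g_γ`, and for every task `t`, which is a function from `ω₁` to `ω₁` with a label, a
sequence of subsets of `ℕ` (indexed by `inr (t, n)`). A condition consists of a finite core and
of finitely many promises, each promise being a name of a function to be dominated by `g_γ`.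
-/

namespace Pool.Agent.W876.Sel

open Cardinal

/-- The set of countable ordinals. -/
abbrev Om : Type := (ℵ_ 1).ord.ToType

/-- The tasks. -/
abbrev Tk : Type := (Om → Om) × Om

/-- The indices of the generic subsets of `ℕ`. -/
abbrev Ix : Type := Om ⊕ (Tk × ℕ)

/-- `n` is in the set decided by `l`. -/
def On (l : List Bool) (n : ℕ) : Prop := l[n]? = some true

/-- The finite part of a condition. -/
structure Core : Type where
  x : Ix → List Bool
  g : Om → List ℕ
  z : Set (Ix × Om)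
  ac : Set (Tk × Om)
  hx : {i | x i ≠ []}.Finite
  hg : {γ | g γ ≠ []}.Finite
  hz : z.Finite
  hac : ac.Finite

/-- The order of the cores. -/
structure CLe (q p : Core) : Prop where
  x : ∀ i, p.x i <+: q.x i
  g : ∀ γ, p.g γ <+: q.g γ
  z : p.z ⊆ q.z
  ac : p.ac ⊆ q.ac
  fr : ∀ i j, i ≠ Sum.inl j → (i, j) ∈ p.z → ∀ n, On (q.x i) n → On (q.x (Sum.inl j)) n →
    On (p.x i) n ∧ On (p.x (Sum.inl j)) n
  rq : ∀ t j, (t, j) ∈ p.ac → ∀ n, (Sum.inr (t, n), j) ∈ q.z → (Sum.inr (t, n), j) ∉ p.z →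
    ∃ k v, On (q.x (Sum.inr (t, n))) k ∧ On (q.x (Sum.inl j)) k ∧
      (q.g (t.1 j))[n]? = some v ∧ v ≤ k

/-- The conditions, before the requirement that the names are total. -/
inductive Pre : Type
  | mk (a : Core) (k : ℕ) (b : Fin k → Om) (c : Fin k → ℕ → ℕ → Pre) (m : Fin k → ℕ → ℕ → ℕ) : Pre

/-- A promise: the values of `g_γ` are above those of the function named by `c`, `m`. -/
structure Prm : Type where
  γ : Om
  c : ℕ → ℕ → Pre
  m : ℕ → ℕ → ℕ

/-- the core -/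
def Pre.core : Pre → Core
  | .mk a _ _ _ _ => a

/-- the set of promises -/
def Pre.prom : Pre → Set Prm
  | .mk _ _ b c m => Set.range fun i => ⟨b i, c i, m i⟩

/-- the same promises, another core -/
def Pre.setCore : Pre → Core → Pre
  | .mk _ k b c m, a => .mk a k b c m

@[simp] theorem core_setCore (p : Pre) (a : Core) : (p.setCore a).core = a := by
  cases p; rfl

@[simp] theorem prom_setCore (p : Pre) (a : Core) : (p.setCore a).prom = p.prom := by
  cases p; rfl

theorem prom_finite (p : Pre) : p.prom.Finite := by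
  cases p
  exact Set.finite_range _

theorem exists_pre (a : Core) (S : Set Prm) (hS : S.Finite) : ∃ p : Pre, p.core = a ∧ p.prom = S := by
  obtain ⟨k, f, hf⟩ : ∃ (k : ℕ) (f : Fin k → Prm), Set.range f = S := by
    have := hS.fintype
    refine ⟨Fintype.card S, fun i => ((Fintype.equivFin S).symm i).1, ?_⟩
    ext y
    constructor
    · rintro ⟨i, rfl⟩
      exact ((Fintype.equivFin S).symm i).2
    · intro hy
      exact ⟨Fintype.equivFin S ⟨y, hy⟩, by simp⟩
  refine ⟨.mk a k (fun i => (f i).γ) (fun i => (f i).c) (fun i => (f i).m), rfl, ?_⟩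
  rw [← hf]
  rfl

theorem Pre.ind {motive : Pre → Prop}
    (h : ∀ p : Pre, (∀ x ∈ p.prom, ∀ n l, motive (x.c n l)) → motive p) : ∀ p, motive p := by
  intro p
  induction p with
  | mk a k b c m ih =>
    apply h
    rintro _ ⟨i, rfl⟩ n l
    exact ih i n l

/-- The order of the conditions: `Le q p` says that `q` is stronger than `p`. -/
def Le (q : Pre) : Pre → Prop
  | .mk a k b c m => CLe q.core a ∧ ∀ i : Fin k, (⟨b i, c i, m i⟩ : Prm) ∈ q.prom ∧
      ∀ n v, (a.g (b i)).length ≤ n → (q.core.g (b i))[n]? = some v →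
        ∃ l, Le q (c i n l) ∧ m i n l ≤ v

theorem le_iff {q p : Pre} : Le q p ↔ CLe q.core p.core ∧ ∀ x ∈ p.prom, x ∈ q.prom ∧
    ∀ n v, (p.core.g x.γ).length ≤ n → (q.core.g x.γ)[n]? = some v →
      ∃ l, Le q (x.c n l) ∧ x.m n l ≤ v := by
  cases p with
  | mk a k b c m =>
    simp only [Le, Pre.core, Pre.prom, Set.forall_mem_range]

/-- the indices of subsets attached to a set of tasks and a set of ordinals -/
def IxIn (S : Set Tk) (J : Set Om) : Set Ix := fun i => Sum.rec (fun j => j ∈ J) (fun t => t.1 ∈ S) i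

@[simp] theorem inl_mem {S : Set Tk} {J : Set Om} {j : Om} : (Sum.inl j : Ix) ∈ IxIn S J ↔ j ∈ J :=
  Iff.rfl

@[simp] theorem inr_mem {S : Set Tk} {J : Set Om} {t : Tk × ℕ} :
    (Sum.inr t : Ix) ∈ IxIn S J ↔ t.1 ∈ S := Iff.rfl

/-- the core mentions only members of `S` and `J` -/
structure Core.Within (a : Core) (S : Set Tk) (J : Set Om) : Prop where
  x : ∀ i, a.x i ≠ [] → i ∈ IxIn S J
  g : ∀ γ, a.g γ ≠ [] → γ ∈ J
  z : ∀ i k, (i, k) ∈ a.z → i ∈ IxIn S J ∧ k ∈ J
  ac : ∀ t j, (t, j) ∈ a.ac → t ∈ S ∧ j ∈ J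

/-- the condition mentions only members of `S` and `J` -/
def Within (S : Set Tk) (J : Set Om) : Pre → Prop
  | .mk a k b c _ => a.Within S J ∧ ∀ i : Fin k, b i ∈ J ∧ ∀ n l, Within S J (c i n l)

theorem within_iff {S : Set Tk} {J : Set Om} {p : Pre} : Within S J p ↔
    p.core.Within S J ∧ ∀ x ∈ p.prom, x.γ ∈ J ∧ ∀ n l, Within S J (x.c n l) := by
  cases p with
  | mk a k b c m =>
    simp only [Within, Pre.core, Pre.prom, Set.forall_mem_range]

/-- the tasks which are handled below `β` -/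
def TB (β : Om) : Set Tk := {t | ∀ j < β, t.1 j < β}

/-- the name given by `c` is total, with respect to the set `Q` of conditions -/
def TotOf (Q : Pre → Prop) (c : ℕ → ℕ → Pre) : Prop :=
  (∀ n l, Q (c n l)) ∧ ∀ n q, Q q → ∃ l r, Q r ∧ Le r q ∧ Le r (c n l)

/-- the conditions handled below `β` -/
noncomputable def PB : Om → Pre → Prop :=
  WellFounded.fix (wellFounded_lt (α := Om)) fun β ih p =>
    Within (TB β) (Set.Iio β) p ∧ ∀ x ∈ p.prom, ∀ h : x.γ < β, TotOf (ih x.γ h) x.c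

/-- a total name below `γ` -/
def Tot (γ : Om) (c : ℕ → ℕ → Pre) : Prop := TotOf (PB γ) c

/-- all the names in the promises are total -/
def Good (p : Pre) : Prop := ∀ x ∈ p.prom, Tot x.γ x.c

theorem pb_iff {β : Om} {p : Pre} : PB β p ↔ Within (TB β) (Set.Iio β) p ∧ Good p := by
  unfold PB
  rw [WellFounded.fix_eq]
  constructor
  · rintro ⟨h1, h2⟩
    exact ⟨h1, fun x hx => h2 x hx ((within_iff.1 h1).2 x hx).1⟩
  · rintro ⟨h1, h2⟩
    exact ⟨h1, fun x hx _ => h2 x hx⟩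

theorem on_mono {l l' : List Bool} (h : l <+: l') {n : ℕ} (hn : On l n) : On l' n := by
  obtain ⟨r, rfl⟩ := h
  unfold On at *
  rw [List.getElem?_append_left]
  · exact hn
  · by_contra hcon
    rw [List.getElem?_eq_none (not_lt.1 hcon)] at hn
    exact absurd hn (by simp)

theorem on_lt {l : List Bool} {n : ℕ} (hn : On l n) : n < l.length := by
  by_contra hcon
  unfold On at hn
  rw [List.getElem?_eq_none (not_lt.1 hcon)] at hn
  exact absurd hn (by simp)

theorem on_of_lt {l l' : List Bool} (h : l <+: l') {n : ℕ} (hl : n < l.length) (hn : On l' n) :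
    On l n := by
  obtain ⟨r, rfl⟩ := h
  unfold On at *
  rwa [List.getElem?_append_left hl] at hn

theorem get_mono {l l' : List ℕ} (h : l <+: l') {n v : ℕ} (hn : l[n]? = some v) :
    l'[n]? = some v := by
  obtain ⟨r, rfl⟩ := h
  rw [List.getElem?_append_left]
  · exact hn
  · by_contra hcon
    rw [List.getElem?_eq_none (not_lt.1 hcon)] at hn
    exact absurd hn (by simp)

theorem get_lt {l : List ℕ} {n v : ℕ} (hn : l[n]? = some v) : n < l.length := by
  by_contra hcon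
  rw [List.getElem?_eq_none (not_lt.1 hcon)] at hn
  exact absurd hn (by simp)

theorem get_of_lt {l l' : List ℕ} (h : l <+: l') {n v : ℕ} (hl : n < l.length)
    (hn : l'[n]? = some v) : l[n]? = some v := by
  obtain ⟨r, rfl⟩ := h
  rwa [List.getElem?_append_left hl] at hn

theorem CLe.rfl' (p : Core) : CLe p p :=
  ⟨fun _ => List.prefix_rfl, fun _ => List.prefix_rfl, subset_rfl, subset_rfl,
    fun _ _ _ _ _ h1 h2 => ⟨h1, h2⟩, fun _ _ _ _ h1 h2 => absurd h1 h2⟩

theorem CLe.trans' {r q p : Core} (h : CLe r q) (h' : CLe q p) : CLe r p := by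
  refine ⟨fun i => (h'.x i).trans (h.x i), fun i => (h'.g i).trans (h.g i), h'.z.trans h.z,
    h'.ac.trans h.ac, fun i k hne hik n h1 h2 => ?_, fun t j htj n h1 h2 => ?_⟩
  · obtain ⟨h3, h4⟩ := h.fr i k hne (h'.z hik) n h1 h2
    exact h'.fr i k hne hik n h3 h4
  · by_cases h3 : (Sum.inr (t, n), j) ∈ q.z
    · obtain ⟨k, v, h4, h5, h6, h7⟩ := h'.rq t j htj n h3 h2
      exact ⟨k, v, on_mono (h.x _) h4, on_mono (h.x _) h5, get_mono (h.g _) h6, h7⟩
    · exact h.rq t j (h'.ac htj) n h1 h3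

theorem le_rfl' (p : Pre) : Le p p := by
  rw [le_iff]
  exact ⟨CLe.rfl' _, fun x hx => ⟨hx, fun n v h1 h2 => absurd (get_lt h2) (not_lt.2 h1)⟩⟩

theorem le_trans' {r q : Pre} (h : Le r q) : ∀ {p : Pre}, Le q p → Le r p := by
  intro p
  induction p using Pre.ind with
  | h p ih =>
    intro hp
    rw [le_iff] at hp h ⊢
    refine ⟨h.1.trans' hp.1, fun x hx => ?_⟩
    obtain ⟨h1, h2⟩ := hp.2 x hx
    obtain ⟨h3, h4⟩ := h.2 x h1
    refine ⟨h3, fun n v hn hv => ?_⟩
    by_cases hq : n < (q.core.g x.γ).length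
    · obtain ⟨l, h5, h6⟩ := h2 n v hn (get_of_lt (h.1.g _) hq hv)
      exact ⟨l, ih x hx n l h5, h6⟩
    · exact h4 n v (not_lt.1 hq) hv

theorem Core.Within.mono {a : Core} {S S' : Set Tk} {J J' : Set Om} (h : a.Within S J)
    (hS : S ⊆ S') (hJ : J ⊆ J') : a.Within S' J' := by
  have h0 : IxIn S J ⊆ IxIn S' J' := by
    rintro (j | t) h
    · exact hJ h
    · exact hS h
  exact ⟨fun i hi => h0 (h.x i hi), fun i hi => hJ (h.g i hi),
    fun i k hik => ⟨h0 (h.z i k hik).1, hJ (h.z i k hik).2⟩,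
    fun t j htj => ⟨hS (h.ac t j htj).1, hJ (h.ac t j htj).2⟩⟩

theorem Within.mono {S S' : Set Tk} {J J' : Set Om} (hS : S ⊆ S') (hJ : J ⊆ J') {p : Pre} :
    Within S J p → Within S' J' p := by
  induction p using Pre.ind with
  | h p ih =>
    intro hp
    rw [within_iff] at hp ⊢
    exact ⟨hp.1.mono hS hJ, fun x hx => ⟨hJ (hp.2 x hx).1, fun n l =>
      ih x hx n l ((hp.2 x hx).2 n l)⟩⟩

theorem Core.Within.inter {a : Core} {S S' : Set Tk} {J J' : Set Om} (h : a.Within S J)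
    (h' : a.Within S' J') : a.Within (S ∩ S') (J ∩ J') := by
  have h0 : ∀ i, i ∈ IxIn S J → i ∈ IxIn S' J' → i ∈ IxIn (S ∩ S') (J ∩ J') := by
    rintro (j | t) h1 h2
    · exact ⟨h1, h2⟩
    · exact ⟨h1, h2⟩
  exact ⟨fun i hi => h0 i (h.x i hi) (h'.x i hi), fun i hi => ⟨h.g i hi, h'.g i hi⟩,
    fun i k hik => ⟨h0 _ (h.z i k hik).1 (h'.z i k hik).1, (h.z i k hik).2, (h'.z i k hik).2⟩,
    fun t j htj => ⟨⟨(h.ac t j htj).1, (h'.ac t j htj).1⟩, (h.ac t j htj).2, (h'.ac t j htj).2⟩⟩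

theorem Within.inter {S S' : Set Tk} {J J' : Set Om} {p : Pre} :
    Within S J p → Within S' J' p → Within (S ∩ S') (J ∩ J') p := by
  induction p using Pre.ind with
  | h p ih =>
    intro hp hp'
    rw [within_iff] at hp hp' ⊢
    exact ⟨hp.1.inter hp'.1, fun x hx => ⟨⟨(hp.2 x hx).1, (hp'.2 x hx).1⟩, fun n l =>
      ih x hx n l ((hp.2 x hx).2 n l) ((hp'.2 x hx).2 n l)⟩⟩

theorem within_of_le {S : Set Tk} {J : Set Om} {p c : Pre} (hp : Within S J p) (h : Le p c) :
    Within S J c := by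
  rw [le_iff] at h
  rw [within_iff] at hp ⊢
  refine ⟨⟨fun i hi => hp.1.x i fun h0 => hi ?_, fun i hi => hp.1.g i fun h0 => hi ?_,
    fun i k hik => hp.1.z i k (h.1.z hik), fun t j htj => hp.1.ac t j (h.1.ac htj)⟩,
    fun x hx => hp.2 x (h.2 x hx).1⟩
  · have := h.1.x i
    rw [h0] at this
    exact List.prefix_nil.1 this
  · have := h.1.g i
    rw [h0] at this
    exact List.prefix_nil.1 this

theorem exists_within_core (a : Core) :
    ∃ (S : Set Tk) (J : Set Om), S.Countable ∧ J.Countable ∧ a.Within S J := by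
  have h1 : {i : Ix | a.x i ≠ [] ∨ ∃ k, (i, k) ∈ a.z}.Countable := by
    apply Set.Finite.countable
    refine (a.hx.union (a.hz.image Prod.fst)).subset ?_
    rintro i (h | ⟨k, h⟩)
    · exact Or.inl h
    · exact Or.inr ⟨_, h, rfl⟩
  refine ⟨((fun t : Tk × ℕ => t.1) '' (Sum.inr ⁻¹' {i : Ix | a.x i ≠ [] ∨
      ∃ k, (i, k) ∈ a.z})) ∪ Prod.fst '' a.ac,
    (Sum.inl ⁻¹' {i : Ix | a.x i ≠ [] ∨ ∃ k, (i, k) ∈ a.z}) ∪
      (Prod.snd '' a.ac ∪ ({γ | a.g γ ≠ []} ∪ Prod.snd '' a.z)), ?_, ?_, ?_⟩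
  · exact ((h1.preimage Sum.inr_injective).image _).union (a.hac.countable.image _)
  · exact (h1.preimage Sum.inl_injective).union
      ((a.hac.countable.image _).union (a.hg.countable.union (a.hz.countable.image _)))
  · have h2 : ∀ i : Ix, (a.x i ≠ [] ∨ ∃ k, (i, k) ∈ a.z) → i ∈ IxIn
        (((fun t : Tk × ℕ => t.1) '' (Sum.inr ⁻¹' {i : Ix | a.x i ≠ [] ∨
          ∃ k, (i, k) ∈ a.z})) ∪ Prod.fst '' a.ac)
        ((Sum.inl ⁻¹' {i : Ix | a.x i ≠ [] ∨ ∃ k, (i, k) ∈ a.z}) ∪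
          (Prod.snd '' a.ac ∪ ({γ | a.g γ ≠ []} ∪ Prod.snd '' a.z))) := by
      rintro (j | t) h
      · exact Or.inl h
      · exact Or.inl ⟨t, h, rfl⟩
    exact ⟨fun i hi => h2 i (Or.inl hi), fun i hi => Or.inr (Or.inr (Or.inl hi)),
      fun i k hik => ⟨h2 i (Or.inr ⟨k, hik⟩), Or.inr (Or.inr (Or.inr ⟨_, hik, rfl⟩))⟩,
      fun t j htj => ⟨Or.inr ⟨_, htj, rfl⟩, Or.inr (Or.inl ⟨_, htj, rfl⟩)⟩⟩

theorem exists_within (p : Pre) :
    ∃ (S : Set Tk) (J : Set Om), S.Countable ∧ J.Countable ∧ Within S J p := by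
  induction p with
  | mk a k b c m ih =>
    choose S J hS hJ hW using ih
    obtain ⟨S0, J0, hS0, hJ0, hW0⟩ := exists_within_core a
    refine ⟨S0 ∪ ⋃ i, ⋃ n, ⋃ l, S i n l, J0 ∪ (Set.range b ∪ ⋃ i, ⋃ n, ⋃ l, J i n l), ?_, ?_, ?_⟩
    · exact hS0.union (Set.countable_iUnion fun i => Set.countable_iUnion fun n =>
        Set.countable_iUnion fun l => hS i n l)
    · exact hJ0.union ((Set.countable_range b).union (Set.countable_iUnion fun i =>
        Set.countable_iUnion fun n => Set.countable_iUnion fun l => hJ i n l))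
    · refine ⟨hW0.mono Set.subset_union_left Set.subset_union_left, fun i =>
        ⟨Or.inr (Or.inl ⟨i, rfl⟩), fun n l => (hW i n l).mono ?_ ?_⟩⟩
      · exact fun t ht => Or.inr (Set.mem_iUnion.2 ⟨i, Set.mem_iUnion.2 ⟨n,
          Set.mem_iUnion.2 ⟨l, ht⟩⟩⟩)
      · exact fun t ht => Or.inr (Or.inr (Set.mem_iUnion.2 ⟨i, Set.mem_iUnion.2 ⟨n,
          Set.mem_iUnion.2 ⟨l, ht⟩⟩⟩))

end Pool.Agent.W876.Sel
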