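import Mathlib
import Pool.Agent.W876.Sel.Defs

/-!
# Renaming the tasks
-/

namespace Pool.Agent.W876.Sel

open Cardinal

/-- the permutation of the indices -/
def ixm (f : Tk ≃ Tk) : Ix ≃ Ix := Equiv.sumCongr (Equiv.refl Om) (Equiv.prodCongr f (Equiv.refl ℕ))

@[simp] theorem ixm_inl (f : Tk ≃ Tk) (j : Om) : ixm f (Sum.inl j) = Sum.inl j := rfl

@[simp] theorem ixm_inr (f : Tk ≃ Tk) (t : Tk) (n : ℕ) :
    ixm f (Sum.inr (t, n)) = Sum.inr (f t, n) := rfl

/-- the renamed core -/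
def Core.cm (f : Tk ≃ Tk) (a : Core) : Core where
  x i := a.x (ixm f i)
  g := a.g
  z := {q | (ixm f q.1, q.2) ∈ a.z}
  ac := {q | (f q.1, q.2) ∈ a.ac}
  hx := a.hx.preimage (ixm f).injective.injOn
  hg := a.hg
  hz := a.hz.preimage (f := fun q : Ix × Om => (ixm f q.1, q.2)) (by
    rintro ⟨i, k⟩ _ ⟨i', k'⟩ _ h
    simp only [Prod.mk.injEq, EmbeddingLike.apply_eq_iff_eq] at h
    exact Prod.ext h.1 h.2)
  hac := a.hac.preimage (f := fun q : Tk × Om => (f q.1, q.2)) (by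
    rintro ⟨i, k⟩ _ ⟨i', k'⟩ _ h
    simp only [Prod.mk.injEq, EmbeddingLike.apply_eq_iff_eq] at h
    exact Prod.ext h.1 h.2)

theorem Core.ext' {a b : Core} (h1 : a.x = b.x) (h2 : a.g = b.g) (h3 : a.z = b.z)
    (h4 : a.ac = b.ac) : a = b := by
  cases a
  cases b
  simp only at h1 h2 h3 h4
  subst h1 h2 h3 h4
  rfl

/-- the renamed condition -/
def Pre.cm (f : Tk ≃ Tk) : Pre → Pre
  | .mk a k b c m => .mk (a.cm f) k b (fun i n l => (c i n l).cm f) m

/-- the renamed promise -/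
def Prm.cm (f : Tk ≃ Tk) (x : Prm) : Prm := ⟨x.γ, fun n l => (x.c n l).cm f, x.m⟩

@[simp] theorem core_cm (f : Tk ≃ Tk) (p : Pre) : (p.cm f).core = p.core.cm f := by
  cases p; rfl

theorem prom_cm (f : Tk ≃ Tk) (p : Pre) : (p.cm f).prom = Prm.cm f '' p.prom := by
  cases p with
  | mk a k b c m =>
    simp only [Pre.cm, Pre.prom]
    ext x
    constructor
    · rintro ⟨i, rfl⟩
      exact ⟨_, ⟨i, rfl⟩, rfl⟩
    · rintro ⟨_, ⟨i, rfl⟩, rfl⟩
      exact ⟨i, rfl⟩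

theorem Core.cm_symm (f : Tk ≃ Tk) (a : Core) : (a.cm f).cm f.symm = a := by
  have h : ∀ i, ixm f (ixm f.symm i) = i := by
    rintro (j | ⟨t, n⟩)
    · rfl
    · simp
  apply Core.ext'
  · funext i
    simp [Core.cm, h]
  · rfl
  · ext ⟨i, k⟩
    simp [Core.cm, h]
  · ext ⟨i, k⟩
    simp [Core.cm]

theorem Pre.cm_symm (f : Tk ≃ Tk) (p : Pre) : (p.cm f).cm f.symm = p := by
  induction p with
  | mk a k b c m ih =>
    simp only [Pre.cm, Core.cm_symm, ih]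

theorem Pre.cm_symm' (f : Tk ≃ Tk) (p : Pre) : (p.cm f.symm).cm f = p := by
  have := Pre.cm_symm f.symm p
  simpa using this

theorem within_cm (f : Tk ≃ Tk) {S : Set Tk} {J : Set Om} {p : Pre} :
    Within S J p → Within (f ⁻¹' S) J (p.cm f) := by
  induction p using Pre.ind with
  | h p ih =>
    intro hp
    rw [within_iff] at hp ⊢
    have h0 : ∀ i, ixm f i ∈ IxIn S J → i ∈ IxIn (f ⁻¹' S) J := by
      rintro (j | t) h
      · exact h
      · exact h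
    refine ⟨?_, ?_⟩
    · rw [core_cm]
      exact ⟨fun i hi => h0 i (hp.1.x _ hi), fun γ hγ => hp.1.g γ hγ,
        fun i k hik => ⟨h0 _ (hp.1.z _ _ hik).1, (hp.1.z _ _ hik).2⟩,
        fun t j htj => hp.1.ac _ _ htj⟩
    · rw [prom_cm]
      rintro _ ⟨x, hx, rfl⟩
      exact ⟨(hp.2 x hx).1, fun n l => ih x hx n l ((hp.2 x hx).2 n l)⟩

theorem Core.cm_congr {f f' : Tk ≃ Tk} {S : Set Tk} {J : Set Om} (h : ∀ t ∈ S, f.symm t = f'.symm t)
    {a : Core} (ha : a.Within S J) : a.cm f = a.cm f' := by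
  have h1 : ∀ t, f t ∈ S → f' t = f t := by
    intro t ht
    have := h _ ht
    rw [f.symm_apply_apply] at this
    rw [eq_comm, Equiv.symm_apply_eq] at this
    exact this.symm
  have h2 : ∀ t, f' t ∈ S → f t = f' t := by
    intro t ht
    have := h _ ht
    rw [f'.symm_apply_apply, Equiv.symm_apply_eq] at this
    exact this.symm
  have h3 : ∀ i, ixm f i ∈ IxIn S J → ixm f' i = ixm f i := by
    rintro (j | ⟨t, n⟩) h
    · rfl
    · simp only [ixm_inr, inr_mem] at h ⊢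
      rw [h1 t h]
  have h4 : ∀ i, ixm f' i ∈ IxIn S J → ixm f i = ixm f' i := by
    rintro (j | ⟨t, n⟩) h
    · rfl
    · simp only [ixm_inr, inr_mem] at h ⊢
      rw [h2 t h]
  apply Core.ext'
  · funext i
    change a.x (ixm f i) = a.x (ixm f' i)
    by_cases hi : a.x (ixm f i) = []
    · by_cases hi' : a.x (ixm f' i) = []
      · rw [hi, hi']
      · rw [h4 i (ha.x _ hi')]
    · rw [h3 i (ha.x _ hi)]
  · rfl
  · ext ⟨i, k⟩
    change (ixm f i, k) ∈ a.z ↔ (ixm f' i, k) ∈ a.z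
    constructor
    · intro h
      rw [h3 i (ha.z _ _ h).1]
      exact h
    · intro h
      rw [h4 i (ha.z _ _ h).1]
      exact h
  · ext ⟨t, j⟩
    change (f t, j) ∈ a.ac ↔ (f' t, j) ∈ a.ac
    constructor
    · intro h
      rw [h1 t (ha.ac _ _ h).1]
      exact h
    · intro h
      rw [h2 t (ha.ac _ _ h).1]
      exact h

theorem cm_congr {f f' : Tk ≃ Tk} {S : Set Tk} {J : Set Om} (h : ∀ t ∈ S, f.symm t = f'.symm t)
    {p : Pre} (hp : Within S J p) : p.cm f = p.cm f' := by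
  induction p with
  | mk a k b c m ih =>
    simp only [Pre.cm]
    congr 1
    · exact Core.cm_congr h hp.1
    · funext i n l
      exact ih i n l ((hp.2 i).2 n l)

/-- the map `f` does not change the values below `β` -/
def Fx (β : Om) (f : Tk ≃ Tk) : Prop := ∀ t, ∀ j < β, (f t).1 j = t.1 j

theorem Fx.symm {β : Om} {f : Tk ≃ Tk} (h : Fx β f) : Fx β f.symm := by
  intro t j hj
  have := h (f.symm t) j hj
  rw [Equiv.apply_symm_apply] at this
  exact this.symm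

theorem Core.cle_cm {β : Om} {f : Tk ≃ Tk} (hf : Fx β f) {q p : Core}
    (hp : p.Within Set.univ (Set.Iio β)) (h : CLe q p) : CLe (q.cm f) (p.cm f) := by
  refine ⟨fun i => h.x _, fun γ => h.g γ, fun i hi => h.z hi, fun i hi => h.ac hi,
    fun i k hne hik n h1 h2 => h.fr _ _ (fun he => hne ((ixm f).injective he)) hik n h1 h2,
    fun t j htj n h1 h2 => ?_⟩
  obtain ⟨k, v, h3, h4, h5, h6⟩ := h.rq (f t) j htj n h1 h2
  refine ⟨k, v, h3, h4, ?_, h6⟩
  rw [hf t j (hp.ac _ _ htj).2] at h5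
  exact h5

theorem le_cm {β : Om} {f : Tk ≃ Tk} (hf : Fx β f) {q p : Pre}
    (hp : Within Set.univ (Set.Iio β) p) : Le q p → Le (q.cm f) (p.cm f) := by
  induction p using Pre.ind with
  | h p ih =>
    intro h
    rw [le_iff] at h ⊢
    rw [within_iff] at hp
    rw [core_cm, core_cm, prom_cm, prom_cm]
    refine ⟨Core.cle_cm hf hp.1 h.1, ?_⟩
    rintro _ ⟨x, hx, rfl⟩
    obtain ⟨h1, h2⟩ := h.2 x hx
    refine ⟨⟨x, h1, rfl⟩, fun n v hn hv => ?_⟩
    obtain ⟨l, h3, h4⟩ := h2 n v hn hv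
    exact ⟨l, ih x hx n l ((hp.2 x hx).2 n l) h3, h4⟩

theorem pb_cm_aux {β : Om} : ∀ δ ≤ β, ∀ f : Tk ≃ Tk, Fx β f → ∀ p, PB δ p → PB δ (p.cm f) := by
  intro δ
  induction δ using WellFoundedLT.induction with
  | ind δ ih =>
    intro hδ f hf p hp
    rw [pb_iff] at hp ⊢
    refine ⟨(within_cm f hp.1).mono ?_ subset_rfl, ?_⟩
    · intro t ht j hj
      have := ht j hj
      rwa [hf t j (hj.trans_le hδ)] at this
    · intro x hx
      rw [prom_cm] at hx
      obtain ⟨y, hy, rfl⟩ := hx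
      have hγ : y.γ < δ := ((within_iff.1 hp.1).2 y hy).1
      have hγβ : y.γ ≤ β := hγ.le.trans hδ
      obtain ⟨h1, h2⟩ := hp.2 y hy
      have hw : ∀ {q : Pre}, PB y.γ q → Within Set.univ (Set.Iio β) q := fun hq =>
        (pb_iff.1 hq).1.mono (Set.subset_univ _) (Set.Iio_subset_Iio hγβ)
      refine ⟨fun n l => ih _ hγ hγβ f hf _ (h1 n l), fun n q hq => ?_⟩
      obtain ⟨l, r, hr, h3, h4⟩ := h2 n (q.cm f.symm) (ih _ hγ hγβ f.symm hf.symm _ hq)
      refine ⟨l, r.cm f, ih _ hγ hγβ f hf _ hr, ?_, le_cm hf (hw (h1 n l)) h4⟩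
      have := le_cm hf (hw (ih _ hγ hγβ f.symm hf.symm _ hq)) h3
      rwa [Pre.cm_symm'] at this

theorem pb_cm {β : Om} {f : Tk ≃ Tk} (hf : Fx β f) {p : Pre} (hp : PB β p) : PB β (p.cm f) :=
  pb_cm_aux β le_rfl f hf p hp

theorem tot_cm {γ : Om} {f : Tk ≃ Tk} (hf : Fx γ f) {c : ℕ → ℕ → Pre} (hc : Tot γ c) :
    Tot γ (fun n l => (c n l).cm f) := by
  obtain ⟨h1, h2⟩ := hc
  have hw : ∀ {q : Pre}, PB γ q → Within Set.univ (Set.Iio γ) q := fun hq =>
    (pb_iff.1 hq).1.mono (Set.subset_univ _) subset_rfl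
  refine ⟨fun n l => pb_cm hf (h1 n l), fun n q hq => ?_⟩
  obtain ⟨l, r, hr, h3, h4⟩ := h2 n (q.cm f.symm) (pb_cm hf.symm hq)
  refine ⟨l, r.cm f, pb_cm hf hr, ?_, le_cm hf (hw (h1 n l)) h4⟩
  have := le_cm hf (hw (pb_cm hf.symm hq)) h3
  rwa [Pre.cm_symm'] at this

end Pool.Agent.W876.Sel
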