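import Mathlib
import Pool.Agent.W876.Sel.Map

/-!
# Restricting a condition
-/

namespace Pool.Agent.W876.Sel

open Cardinal

/-- the properties of the renaming used in the restriction to `β` -/
structure Cp (β : Om) (S : Set Tk) (f : Tk ≃ Tk) : Prop where
  inv : ∀ t, f (f t) = t
  fix : ∀ t ∈ S, t ∈ TB β → f t = t
  low : ∀ t ∈ S, f t ∈ TB β
  eqv : ∀ t ∈ S, ∀ γ < β, t ∈ TB γ → ∀ j < γ, (f t).1 j = t.1 j
  sep : ∀ t, t ∈ TB β → f t ∈ TB β → f t = t
  loc : ∀ γ < β, ∃ f' : Tk ≃ Tk, Fx γ f' ∧ ∀ t ∈ S ∩ TB γ, f'.symm t = f.symm t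

theorem exists_swap (F : Tk → Tk) (M : Set Tk) (hinj : Set.InjOn F M) (hdis : ∀ t ∈ M, F t ∉ M) :
    ∃ f : Tk ≃ Tk, (∀ t, f (f t) = t) ∧ (∀ t ∈ M, f t = F t) ∧
      ∀ t, t ∉ M → (∀ u ∈ M, F u ≠ t) → f t = t := by
  classical
  let s : Tk → Tk := fun t => if t ∈ M then F t else if h : ∃ u ∈ M, F u = t then h.choose else t
  have h1 : ∀ t ∈ M, s t = F t := fun t ht => if_pos ht
  have h2 : ∀ u ∈ M, s (F u) = u := by
    intro u hu
    have h : ∃ u' ∈ M, F u' = F u := ⟨u, hu, rfl⟩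
    change (if F u ∈ M then F (F u) else if h : ∃ u' ∈ M, F u' = F u then h.choose else F u) = u
    rw [if_neg (hdis u hu), dif_pos h]
    exact hinj h.choose_spec.1 hu h.choose_spec.2
  have h3 : ∀ t, t ∉ M → (∀ u ∈ M, F u ≠ t) → s t = t := by
    intro t ht ht'
    have h : ¬ ∃ u ∈ M, F u = t := by
      rintro ⟨u, hu, h⟩
      exact ht' u hu h
    change (if t ∈ M then F t else if h : ∃ u' ∈ M, F u' = t then h.choose else t) = t
    rw [if_neg ht, dif_neg h]
  have hs : Function.Involutive s := by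
    intro t
    by_cases ht : t ∈ M
    · rw [h1 t ht, h2 t ht]
    · by_cases ht' : ∃ u ∈ M, F u = t
      · obtain ⟨u, hu, rfl⟩ := ht'
        rw [h2 u hu, h1 u hu]
      · push Not at ht'
        rw [h3 t ht ht', h3 t ht ht']
  exact ⟨hs.toPerm, hs, h1, h3⟩

theorem om_uncountable : Uncountable Om := by
  rw [← Cardinal.aleph0_lt_mk_iff]
  simp

theorem exists_labels {S : Set Tk} (hS : S.Countable) :
    ∃ e : Tk → Om, Set.InjOn e S ∧ ∀ t ∈ S, ∀ u ∈ S, e t ≠ u.2 := by
  have h1 : (Prod.snd '' S)ᶜ.Infinite := by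
    intro hfin
    have h2 : (Set.univ : Set Om).Countable := by
      rw [← Set.union_compl_self (Prod.snd '' S)]
      exact (hS.image _).union hfin.countable
    have := om_uncountable
    exact not_countable (α := Om) (Set.countable_univ_iff.1 h2)
  have h3 := h1.natEmbedding
  obtain ⟨k, hk⟩ := Set.countable_iff_exists_injOn.1 hS
  refine ⟨fun t => (h3 (k t)).1, ?_, ?_⟩
  · intro t ht u hu h
    exact hk ht hu (h3.injective (Subtype.ext h))
  · intro t _ u hu h
    exact (h3 (k t)).2 ⟨u, hu, h.symm⟩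

theorem exists_cp (β : Om) {S : Set Tk} (hS : S.Countable) : ∃ f, Cp β S f := by
  classical
  obtain ⟨e, he1, he2⟩ := exists_labels hS
  let v : Tk → Om → Om := fun t j => if ∃ γ < β, j < γ ∧ t ∈ TB γ then t.1 j else
    if h : ∃ i, i < β then h.choose else j
  let F : Tk → Tk := fun t => (v t, e t)
  have hF1 : Set.InjOn F S := fun t ht u hu h => he1 ht hu (congrArg Prod.snd h)
  have hF2 : ∀ t ∈ S, F t ∉ S := fun t ht h => he2 t ht _ h rfl
  have hF3 : ∀ t, F t ∈ TB β := by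
    intro t j hj
    change v t j < β
    have h0 : ∃ i, i < β := ⟨j, hj⟩
    by_cases h : ∃ γ < β, j < γ ∧ t ∈ TB γ
    · change (if ∃ γ < β, j < γ ∧ t ∈ TB γ then t.1 j else _) < β
      rw [if_pos h]
      obtain ⟨γ, h1, h2, h3⟩ := h
      exact (h3 j h2).trans h1
    · change (if ∃ γ < β, j < γ ∧ t ∈ TB γ then t.1 j else
        if h : ∃ i, i < β then h.choose else j) < β
      rw [if_neg h, dif_pos h0]
      exact h0.choose_spec
  have hF4 : ∀ t, ∀ γ < β, t ∈ TB γ → ∀ j < γ, (F t).1 j = t.1 j := by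
    intro t γ hγ ht j hj
    exact if_pos ⟨γ, hγ, hj, ht⟩
  obtain ⟨f, hf1, hf2, hf3⟩ := exists_swap F (S \ TB β) (hF1.mono Set.sdiff_subset)
    fun t ht h => hF2 t ht.1 h.1
  have hsymm : ∀ {f : Tk ≃ Tk}, (∀ t, f (f t) = t) → ∀ t, f.symm t = f t := by
    intro f hf t
    rw [Equiv.symm_apply_eq, hf]
  refine ⟨f, hf1, ?_, ?_, ?_, ?_, ?_⟩
  · exact fun t ht hβ => hf3 t (fun h => h.2 hβ) fun u hu h => hF2 u hu.1 (h ▸ ht)
  · intro t ht
    by_cases hβ : t ∈ TB β
    · rw [hf3 t (fun h => h.2 hβ) fun u hu h => hF2 u hu.1 (h ▸ ht)]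
      exact hβ
    · rw [hf2 t ⟨ht, hβ⟩]
      exact hF3 t
  · intro t ht γ hγ h1 j hj
    by_cases hβ : t ∈ TB β
    · rw [hf3 t (fun h => h.2 hβ) fun u hu h => hF2 u hu.1 (h ▸ ht)]
    · rw [hf2 t ⟨ht, hβ⟩]
      exact hF4 t γ hγ h1 j hj
  · intro t ht h
    by_cases h1 : ∃ u ∈ S \ TB β, F u = t
    · obtain ⟨u, hu, rfl⟩ := h1
      rw [← hf2 u hu, hf1] at h
      exact absurd h hu.2
    · push Not at h1
      exact hf3 t (fun h => h.2 ht) h1
  · intro γ hγ
    obtain ⟨f', hf1', hf2', hf3'⟩ := exists_swap F ((S \ TB β) ∩ TB γ)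
      (hF1.mono fun t ht => ht.1.1) fun t ht h => hF2 t ht.1.1 h.1.1
    refine ⟨f', ?_, ?_⟩
    · intro t j hj
      by_cases h1 : t ∈ (S \ TB β) ∩ TB γ
      · rw [hf2' t h1]
        exact hF4 t γ hγ h1.2 j hj
      · by_cases h2 : ∃ u ∈ (S \ TB β) ∩ TB γ, F u = t
        · obtain ⟨u, hu, rfl⟩ := h2
          have h3 : f' (F u) = u := by
            rw [← hf2' u hu, hf1']
          rw [h3]
          exact (hF4 u γ hγ hu.2 j hj).symm
        · push Not at h2
          rw [hf3' t h1 h2]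
    · rintro t ⟨ht, h1⟩
      rw [hsymm hf1, hsymm hf1']
      by_cases hβ : t ∈ TB β
      · rw [hf3 t (fun h => h.2 hβ) fun u hu h => hF2 u hu.1 (h ▸ ht),
          hf3' t (fun h => h.1.2 hβ) fun u hu h => hF2 u hu.1.1 (h ▸ ht)]
      · rw [hf2 t ⟨ht, hβ⟩, hf2' t ⟨⟨ht, hβ⟩, h1⟩]

/-- all the sequences which are not empty have length `m` -/
structure Norm (a : Core) (m : ℕ) : Prop where
  x : ∀ i, a.x i ≠ [] → (a.x i).length = m
  z : ∀ i k, (i, k) ∈ a.z → (a.x i).length = m ∧ (a.x (Sum.inl k)).length = m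

section

variable {β : Om} {S : Set Tk} {f : Tk ≃ Tk}

theorem Cp.ix (h : Cp β S f) (i : Ix) : ixm f (ixm f i) = i := by
  rcases i with j | ⟨t, n⟩
  · rfl
  · rw [ixm_inr, ixm_inr, h.inv]

open Classical in
/-- the core of the restriction -/
noncomputable def resCore (β : Om) (f : Tk ≃ Tk) (a : Core) : Core where
  x i := if i ∈ IxIn (TB β) (Set.Iio β) then a.x (ixm f i) else []
  g γ := if γ < β then a.g γ else []
  z := {q | q.1 ∈ IxIn (TB β) (Set.Iio β) ∧ q.2 < β ∧ (ixm f q.1, q.2) ∈ a.z}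
  ac := {q | q.1 ∈ TB β ∧ q.2 < β ∧ (f q.1, q.2) ∈ a.ac}
  hx := (a.cm f).hx.subset fun i hi h => hi (by
    change a.x (ixm f i) = [] at h
    simp only [h, ite_self])
  hg := a.hg.subset fun i hi h => hi (by
    simp only [h, ite_self])
  hz := (a.cm f).hz.subset fun q hq => hq.2.2
  hac := (a.cm f).hac.subset fun q hq => hq.2.2

theorem exists_res (β : Om) (f : Tk ≃ Tk) (p : Pre) : ∃ p' : Pre,
    p'.core = resCore β f p.core ∧ p'.prom = Prm.cm f '' {x ∈ p.prom | x.γ < β} :=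
  exists_pre _ _ (((prom_finite p).subset (Set.sep_subset _ _)).image _)

theorem resCore_x_inl {a : Core} {j : Om} (hj : j < β) :
    (resCore β f a).x (Sum.inl j) = a.x (Sum.inl j) := if_pos hj

theorem resCore_x_pos {a : Core} {i : Ix} (hi : i ∈ IxIn (TB β) (Set.Iio β)) :
    (resCore β f a).x i = a.x (ixm f i) := if_pos hi

theorem resCore_g {a : Core} {γ : Om} (hj : γ < β) :
    (resCore β f a).g γ = a.g γ := if_pos hj

theorem cm_id {S' : Set Tk} {J : Set Om} (hf : ∀ t, f (f t) = t) (h : ∀ t ∈ S', f t = t) {p : Pre}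
    (hp : Within S' J p) : p.cm f = p := by
  have h1 : p.cm f = p.cm (Equiv.refl Tk) := by
    apply cm_congr (S := S') (J := J) _ hp
    intro t ht
    rw [Equiv.refl_symm, Equiv.refl_apply, Equiv.symm_apply_eq, h t ht]
  rw [h1]
  clear h1 hp
  induction p with
  | mk a k b c m ih =>
    simp only [Pre.cm, ih]
    congr 1
    apply Core.ext'
    · funext i
      change a.x _ = a.x i
      rcases i with j | ⟨t, n⟩
      · rfl
      · rfl
    · rfl
    · ext ⟨i, k⟩
      rcases i with j | ⟨t, n⟩ <;> rfl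
    · ext ⟨i, k⟩
      rfl

theorem res_pb (hf : Cp β S f) {p p' : Pre} (hp : Good p) (hS : Within S Set.univ p)
    (h1 : p'.core = resCore β f p.core) (h2 : p'.prom = Prm.cm f '' {x ∈ p.prom | x.γ < β}) :
    PB β p' := by
  rw [pb_iff]
  constructor
  · rw [within_iff, h1, h2]
    refine ⟨⟨fun i hi => ?_, fun γ hγ => ?_, fun i k hik => ⟨hik.1, hik.2.1⟩,
      fun t j htj => ⟨htj.1, htj.2.1⟩⟩, ?_⟩
    · by_contra hcon
      exact hi (if_neg hcon)
    · by_contra hcon
      exact hγ (if_neg hcon)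
    · rintro _ ⟨x, ⟨hx, hγ⟩, rfl⟩
      refine ⟨hγ, fun n l => ?_⟩
      have h3 : Within S Set.univ (x.c n l) := ((within_iff.1 hS).2 x hx).2 n l
      have h4 := (pb_iff.1 ((hp x hx).1 n l)).1
      refine (within_cm f (h3.inter h4)).mono ?_ ?_
      · rintro t ⟨ht, -⟩
        have h5 := hf.low _ ht
        rw [hf.inv] at h5
        exact h5
      · rintro j ⟨-, hj⟩
        exact lt_trans hj hγ
  · intro y hy
    rw [h2] at hy
    obtain ⟨x, ⟨hx, hγ⟩, rfl⟩ := hy
    obtain ⟨f', hf1, hf2⟩ := hf.loc x.γ hγ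
    have h3 := tot_cm hf1 (hp x hx)
    have h4 : (Prm.cm f x).c = fun n l => (x.c n l).cm f' := by
      funext n l
      have h3 : Within S Set.univ (x.c n l) := ((within_iff.1 hS).2 x hx).2 n l
      have h4 := (pb_iff.1 ((hp x hx).1 n l)).1
      exact cm_congr (fun t ht => (hf2 t ht).symm) (h3.inter h4)
    rw [h4]
    exact h3

theorem res_le (hf : Cp β S f) {p p' : Pre} (hS : Within S Set.univ p)
    (h1 : p'.core = resCore β f p.core) (h2 : p'.prom = Prm.cm f '' {x ∈ p.prom | x.γ < β}) :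
    ∀ {c : Pre}, Within (TB β) (Set.Iio β) c → Le p c → Le p' c := by
  intro c
  induction c using Pre.ind with
  | h c ih =>
    intro hW hle
    have hWS := within_of_le hS hle
    have hWc := hWS.inter hW
    have hfixt : ∀ t ∈ S ∩ TB β, f t = t := fun t ht => hf.fix t ht.1 ht.2
    have hfix : ∀ i ∈ IxIn (S ∩ TB β) (Set.univ ∩ Set.Iio β), ixm f i = i := by
      rintro (j | ⟨t, n⟩) h
      · rfl
      · rw [ixm_inr, hfixt t h]
    have hin : ∀ i ∈ IxIn (S ∩ TB β) (Set.univ ∩ Set.Iio β), i ∈ IxIn (TB β) (Set.Iio β) := by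
      rintro (j | ⟨t, n⟩) h
      · exact h.2
      · exact h.2
    have hx : ∀ i ∈ IxIn (S ∩ TB β) (Set.univ ∩ Set.Iio β), p'.core.x i = p.core.x i := by
      intro i hi
      rw [h1, resCore_x_pos (hin i hi), hfix i hi]
    have hg : ∀ γ < β, p'.core.g γ = p.core.g γ := fun γ hγ => by rw [h1, resCore_g hγ]
    rw [le_iff] at hle ⊢
    rw [within_iff] at hWc hW
    refine ⟨⟨fun i => ?_, fun γ => ?_, ?_, ?_, ?_, ?_⟩, fun x hxc => ?_⟩
    · by_cases hi : c.core.x i = []
      · rw [hi]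
        exact List.nil_prefix
      · rw [hx i (hWc.1.x i hi)]
        exact hle.1.x i
    · by_cases hγ : c.core.g γ = []
      · rw [hγ]
        exact List.nil_prefix
      · rw [hg γ (hWc.1.g γ hγ).2]
        exact hle.1.g γ
    · rintro ⟨i, k⟩ hik
      obtain ⟨h3, h4⟩ := hWc.1.z i k hik
      rw [h1]
      refine ⟨hin i h3, h4.2, ?_⟩
      change (ixm f i, k) ∈ p.core.z
      rw [hfix i h3]
      exact hle.1.z hik
    · rintro ⟨t, j⟩ htj
      obtain ⟨h3, h4⟩ := hWc.1.ac t j htj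
      rw [h1]
      refine ⟨h3.2, h4.2, ?_⟩
      change (f t, j) ∈ p.core.ac
      rw [hfixt t h3]
      exact hle.1.ac htj
    · intro i k hne hik n h5 h6
      obtain ⟨h3, h4⟩ := hWc.1.z i k hik
      rw [hx i h3] at h5
      rw [hx (Sum.inl k) h4] at h6
      exact hle.1.fr i k hne hik n h5 h6
    · intro t j htj n h5 h6
      obtain ⟨h3, h4⟩ := hWc.1.ac t j htj
      have h7 : (Sum.inr (t, n), j) ∈ p.core.z := by
        rw [h1] at h5
        have := h5.2.2
        rw [ixm_inr, hfixt t h3] at this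
        exact this
      obtain ⟨k, v, h8, h9, h10, h11⟩ := hle.1.rq t j htj n h7 h6
      refine ⟨k, v, ?_, ?_, ?_, h11⟩
      · rw [hx _ h3]
        exact h8
      · rw [hx _ h4]
        exact h9
      · rw [hg _ (h3.2 j h4.2)]
        exact h10
    · obtain ⟨h3, h4⟩ := hle.2 x hxc
      obtain ⟨h5, h6⟩ := hWc.2 x hxc
      have h7 : Prm.cm f x = x := by
        have : ∀ n l, (x.c n l).cm f = x.c n l := fun n l => cm_id hf.inv hfixt (h6 n l)
        cases x
        simp only [Prm.cm]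
        congr 1
        funext n l
        exact this n l
      refine ⟨?_, fun n v hn hv => ?_⟩
      · rw [h2]
        exact ⟨x, ⟨h3, h5.2⟩, h7⟩
      · rw [hg _ h5.2] at hv
        obtain ⟨l, h8, h9⟩ := h4 n v hn hv
        exact ⟨l, ih x hxc n l ((hW.2 x hxc).2 n l) h8, h9⟩

open Classical in
/-- the core of the amalgam -/
noncomputable def amCore (β : Om) (f : Tk ≃ Tk) (p r : Core) : Core where
  x i := if i ∈ IxIn (TB β) (Set.Iio β) then r.x i else
    if ixm f i ∈ IxIn (TB β) (Set.Iio β) then r.x (ixm f i) else p.x i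
  g γ := if γ < β then r.g γ else p.g γ
  z := p.z ∪ (r.z ∪ {q | (ixm f q.1, q.2) ∈ r.z ∧
    ∃ γ < β, q.1 ∈ IxIn (TB γ) (Set.Iio γ) ∧ q.2 < γ})
  ac := p.ac ∪ (r.ac ∪ {q | (f q.1, q.2) ∈ r.ac ∧ ∃ γ < β, q.1 ∈ TB γ ∧ q.2 < γ})
  hx := by
    refine (r.hx.union ((r.cm f).hx.union p.hx)).subset fun i hi => ?_
    by_contra hcon
    simp only [Set.mem_union, not_or, Set.mem_ofPred_eq, not_not] at hcon
    apply hi
    have h2 : r.x (ixm f i) = [] := hcon.2.1
    simp only [hcon.1, hcon.2.2, h2, ite_self]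
  hg := by
    refine (r.hg.union p.hg).subset fun i hi => ?_
    by_contra hcon
    simp only [Set.mem_union, not_or, Set.mem_ofPred_eq, not_not] at hcon
    apply hi
    simp only [hcon.1, hcon.2, ite_self]
  hz := p.hz.union (r.hz.union ((r.cm f).hz.subset fun q hq => hq.1))
  hac := p.hac.union (r.hac.union ((r.cm f).hac.subset fun q hq => hq.1))

theorem exists_am (β : Om) (f : Tk ≃ Tk) (p r : Pre) : ∃ q : Pre,
    q.core = amCore β f p.core r.core ∧
      q.prom = p.prom ∪ (r.prom ∪ {y ∈ Prm.cm f '' r.prom | Tot y.γ y.c}) :=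
  exists_pre _ _ ((prom_finite p).union ((prom_finite r).union
    (((prom_finite r).image _).subset (Set.sep_subset _ _))))

theorem Cp.cm_cm (hf : Cp β S f) (p : Pre) : (p.cm f).cm f = p := by
  have h1 : f.symm = f := by
    ext1 t
    rw [Equiv.symm_apply_eq, hf.inv]
  have := Pre.cm_symm f p
  rwa [h1] at this

theorem Cp.prm_cm (hf : Cp β S f) (x : Prm) : Prm.cm f (Prm.cm f x) = x := by
  cases x
  simp only [Prm.cm]
  congr 1
  funext n l
  exact hf.cm_cm _

section am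

variable {p p' r q : Pre}

theorem am_x_low (hf : Cp β S f) (hq1 : q.core = amCore β f p.core r.core) {i : Ix}
    (hi : i ∈ IxIn S (Set.Iio β)) : q.core.x i = r.core.x (ixm f i) ∧
      ixm f i ∈ IxIn (TB β) (Set.Iio β) := by
  rcases i with j | ⟨t, n⟩
  · refine ⟨?_, hi⟩
    rw [hq1]
    exact if_pos hi
  · have h1 : f t ∈ TB β := hf.low t hi
    refine ⟨?_, h1⟩
    rw [hq1]
    by_cases h2 : t ∈ TB β
    · have h3 : f t = t := hf.fix t hi h2
      rw [ixm_inr, h3]
      exact if_pos h2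
    · exact (if_neg (show (Sum.inr (t, n) : Ix) ∉ IxIn (TB β) (Set.Iio β) from h2)).trans
        (if_pos (show ixm f (Sum.inr (t, n)) ∈ IxIn (TB β) (Set.Iio β) from h1))

theorem am_x_high (hq1 : q.core = amCore β f p.core r.core) {j : Om} (hj : ¬ j < β) :
    q.core.x (Sum.inl j) = p.core.x (Sum.inl j) := by
  rw [hq1]
  exact (if_neg (show (Sum.inl j : Ix) ∉ IxIn (TB β) (Set.Iio β) from hj)).trans
    (if_neg (show ixm f (Sum.inl j) ∉ IxIn (TB β) (Set.Iio β) from hj))

theorem am_x_in (hq1 : q.core = amCore β f p.core r.core) {i : Ix}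
    (hi : i ∈ IxIn (TB β) (Set.Iio β)) : q.core.x i = r.core.x i := by
  rw [hq1]
  exact if_pos hi

theorem am_g_low (hq1 : q.core = amCore β f p.core r.core) {γ : Om} (hj : γ < β) :
    q.core.g γ = r.core.g γ := by
  rw [hq1]
  exact if_pos hj

theorem am_g_high (hq1 : q.core = amCore β f p.core r.core) {γ : Om} (hj : ¬ γ < β) :
    q.core.g γ = p.core.g γ := by
  rw [hq1]
  exact if_neg hj

theorem am_z (hf : Cp β S f) (hS : Within S Set.univ p) (hr : PB β r)
    (h1 : p'.core = resCore β f p.core) (hle : Le r p')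
    (hq1 : q.core = amCore β f p.core r.core) {t : Tk} {n : ℕ} {j : Om} (ht : t ∈ S)
    (hj : j < β) (h : (Sum.inr (t, n), j) ∈ q.core.z) :
    (Sum.inr (f t, n), j) ∈ r.core.z := by
  rw [hq1] at h
  rcases h with h | h | h
  · apply (le_iff.1 hle).1.z
    rw [h1]
    refine ⟨hf.low t ht, hj, ?_⟩
    rw [ixm_inr, hf.inv]
    exact h
  · have h3 : t ∈ TB β := ((within_iff.1 (pb_iff.1 hr).1).1.z _ _ h).1
    rw [hf.fix t ht h3]
    exact h
  · exact h.1

theorem am_claim (hf : Cp β S f) (hS : Within S Set.univ p) (hr : PB β r)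
    (h1 : p'.core = resCore β f p.core) (hle : Le r p')
    (hq1 : q.core = amCore β f p.core r.core)
    (hq2 : q.prom = p.prom ∪ (r.prom ∪ {y ∈ Prm.cm f '' r.prom | Tot y.γ y.c})) {γ : Om}
    (hγ : γ < β) :
    ∀ {c : Pre}, Within S Set.univ c → PB γ c → Le r (c.cm f) → Le q c := by
  intro c
  induction c using Pre.ind with
  | h c ih =>
    intro hcS hc hcr
    have hW := hcS.inter (pb_iff.1 hc).1
    have hG := (pb_iff.1 hc).2
    rw [within_iff] at hW
    rw [le_iff] at hcr ⊢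
    rw [core_cm, prom_cm] at hcr
    have hin : ∀ i ∈ IxIn (S ∩ TB γ) (Set.univ ∩ Set.Iio γ), i ∈ IxIn S (Set.Iio β) := by
      rintro (j | t) h
      · exact lt_trans h.2 hγ
      · exact h.1
    have hin' : ∀ i ∈ IxIn (S ∩ TB γ) (Set.univ ∩ Set.Iio γ), i ∈ IxIn (TB γ) (Set.Iio γ) := by
      rintro (j | t) h
      · exact h.2
      · exact h.2
    refine ⟨⟨fun i => ?_, fun δ => ?_, ?_, ?_, ?_, ?_⟩, fun x hxc => ?_⟩
    · by_cases hi : c.core.x i = []
      · rw [hi]
        exact List.nil_prefix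
      · rw [(am_x_low hf hq1 (hin i (hW.1.x i hi))).1]
        have := hcr.1.x (ixm f i)
        change c.core.x (ixm f (ixm f i)) <+: _ at this
        rwa [hf.ix] at this
    · by_cases hδ : c.core.g δ = []
      · rw [hδ]
        exact List.nil_prefix
      · rw [am_g_low hq1 (lt_trans (hW.1.g δ hδ).2 hγ)]
        exact hcr.1.g δ
    · rintro ⟨i, k⟩ hik
      obtain ⟨h3, h4⟩ := hW.1.z i k hik
      rw [hq1]
      refine Or.inr (Or.inr ⟨hcr.1.z ?_, γ, hγ, hin' i h3, h4.2⟩)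
      change (ixm f (ixm f i), k) ∈ c.core.z
      rw [hf.ix]
      exact hik
    · rintro ⟨t, j⟩ htj
      obtain ⟨h3, h4⟩ := hW.1.ac t j htj
      rw [hq1]
      refine Or.inr (Or.inr ⟨hcr.1.ac ?_, γ, hγ, h3.2, h4.2⟩)
      change (f (f t), j) ∈ c.core.ac
      rw [hf.inv]
      exact htj
    · intro i k hne hik n h5 h6
      obtain ⟨h3, h4⟩ := hW.1.z i k hik
      rw [(am_x_low hf hq1 (hin i h3)).1] at h5
      rw [(am_x_low hf hq1 (hin (Sum.inl k) h4)).1] at h6
      have h7 := hcr.1.fr (ixm f i) k (fun he => hne (by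
        have := congrArg (ixm f) he
        rwa [hf.ix] at this)) (by
        change (ixm f (ixm f i), k) ∈ c.core.z
        rw [hf.ix]
        exact hik) n h5 h6
      change On (c.core.x (ixm f (ixm f i))) n ∧ On (c.core.x (Sum.inl k)) n at h7
      rwa [hf.ix] at h7
    · intro t j htj n h5 h6
      obtain ⟨h3, h4⟩ := hW.1.ac t j htj
      have hjβ : j < β := lt_trans h4.2 hγ
      have h7 := am_z hf hS hr h1 hle hq1 h3.1 hjβ h5
      obtain ⟨k, v, h8, h9, h10, h11⟩ := hcr.1.rq (f t) j (by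
        change (f (f t), j) ∈ c.core.ac
        rw [hf.inv]
        exact htj) n h7 (by
          intro h
          change (ixm f (Sum.inr (f t, n)), j) ∈ c.core.z at h
          rw [ixm_inr, hf.inv] at h
          exact h6 h)
      refine ⟨k, v, ?_, ?_, ?_, h11⟩
      · rw [(am_x_low hf hq1 (i := Sum.inr (t, n)) h3.1).1]
        exact h8
      · rw [(am_x_low hf hq1 (i := Sum.inl j) hjβ).1]
        exact h9
      · rw [hf.eqv t h3.1 γ hγ h3.2 j h4.2] at h10
        rw [am_g_low hq1 ((h3.2 j h4.2).trans hγ)]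
        exact h10
    · obtain ⟨h3, h4⟩ := hcr.2 _ ⟨x, hxc, rfl⟩
      obtain ⟨h5, h6⟩ := hW.2 x hxc
      have hT := hG x hxc
      refine ⟨?_, fun n v hn hv => ?_⟩
      · rw [hq2]
        exact Or.inr (Or.inr ⟨⟨_, h3, hf.prm_cm x⟩, hT⟩)
      · rw [am_g_low hq1 (lt_trans h5.2 hγ)] at hv
        obtain ⟨l, h8, h9⟩ := h4 n v hn hv
        refine ⟨l, ih x hxc n l ((within_iff.1 hcS).2 x hxc |>.2 n l) ?_ h8, h9⟩
        rw [pb_iff]
        exact ⟨(within_iff.1 (pb_iff.1 hc).1).2 x hxc |>.2 n l, (pb_iff.1 (hT.1 n l)).2⟩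

theorem am_le (hf : Cp β S f) {m : ℕ} (hp : Good p) (hS : Within S Set.univ p)
    (hm : Norm p.core m) (hr : PB β r)
    (h1 : p'.core = resCore β f p.core) (h2 : p'.prom = Prm.cm f '' {x ∈ p.prom | x.γ < β})
    (hle : Le r p') (hq1 : q.core = amCore β f p.core r.core)
    (hq2 : q.prom = p.prom ∪ (r.prom ∪ {y ∈ Prm.cm f '' r.prom | Tot y.γ y.c})) : Le q p := by
  have hW := within_iff.1 hS
  have hrW := within_iff.1 (pb_iff.1 hr).1
  have hle' := le_iff.1 hle
  have hpx : ∀ i ∈ IxIn S (Set.Iio β), p'.core.x (ixm f i) = p.core.x i := by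
    intro i hi
    rw [h1, resCore_x_pos (am_x_low (p := p) (r := r) hf (q := Pre.setCore p
      (amCore β f p.core r.core)) (core_setCore _ _) hi).2, hf.ix]
  have hx : ∀ i, p.core.x i <+: q.core.x i := by
    intro i
    by_cases hi0 : p.core.x i = []
    · rw [hi0]
      exact List.nil_prefix
    · have hi := hW.1.x i hi0
      by_cases hi' : i ∈ IxIn S (Set.Iio β)
      · rw [(am_x_low hf hq1 hi').1, ← hpx i hi']
        exact hle'.1.x _
      · rcases i with j | ⟨t, n⟩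
        · rw [am_x_high hq1 hi']
        · exact absurd hi hi'
  rw [le_iff]
  refine ⟨⟨hx, fun γ => ?_, ?_, ?_, ?_, ?_⟩, fun x hxp => ?_⟩
  · by_cases hγ : γ < β
    · rw [am_g_low hq1 hγ]
      have := hle'.1.g γ
      rwa [h1, resCore_g hγ] at this
    · rw [am_g_high hq1 hγ]
  · rw [hq1]
    exact Set.subset_union_left
  · rw [hq1]
    exact Set.subset_union_left
  · intro i k hne hik n h5 h6
    obtain ⟨h3, h4⟩ := hW.1.z i k hik
    have hlen : n < m → On (p.core.x i) n ∧ On (p.core.x (Sum.inl k)) n := by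
      intro hn
      obtain ⟨h7, h8⟩ := hm.z i k hik
      exact ⟨on_of_lt (hx i) (h7 ▸ hn) h5, on_of_lt (hx _) (h8 ▸ hn) h6⟩
    by_cases hi : i ∈ IxIn S (Set.Iio β)
    · by_cases hk : k < β
      · obtain ⟨h7, h7'⟩ := am_x_low hf hq1 hi
        obtain ⟨h8, h8'⟩ := am_x_low hf hq1 (i := Sum.inl k) hk
        rw [h7] at h5
        rw [h8] at h6
        have h9 := hle'.1.fr (ixm f i) k (fun he => hne (by
          have := congrArg (ixm f) he
          rwa [hf.ix] at this)) (by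
          rw [h1]
          refine ⟨h7', hk, ?_⟩
          change (ixm f (ixm f i), k) ∈ p.core.z
          rw [hf.ix]
          exact hik) n h5 h6
        have h10 := hpx (Sum.inl k) hk
        rw [ixm_inl] at h10
        rwa [hpx i hi, h10] at h9
      · rw [am_x_high hq1 hk] at h6
        apply hlen
        have := on_lt h6
        rwa [(hm.z _ _ hik).2] at this
    · rcases i with j | ⟨t, n'⟩
      · rw [am_x_high hq1 hi] at h5
        apply hlen
        have := on_lt h5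
        rwa [(hm.z _ _ hik).1] at this
      · exact absurd h3 hi
  · intro t j htj n h5 h6
    have ht : t ∈ S := (hW.1.ac t j htj).1
    have h7 : j < β ∧ (f t).1 j = t.1 j ∧ t.1 j < β := by
      rw [hq1] at h5
      rcases h5 with h5 | h5 | h5
      · exact absurd h5 h6
      · obtain ⟨h8, h9⟩ := hrW.1.z _ _ h5
        exact ⟨h9, by rw [hf.fix t ht h8], h8 j h9⟩
      · obtain ⟨h8, γ, hγ, h9, h10⟩ := h5
        exact ⟨lt_trans h10 hγ, hf.eqv t ht γ hγ h9 j h10, (h9 j h10).trans hγ⟩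
    have h8 := am_z hf hS hr h1 hle hq1 ht h7.1 h5
    obtain ⟨k, v, h9, h10, h11, h12⟩ := hle'.1.rq (f t) j (by
      rw [h1]
      refine ⟨hf.low t ht, h7.1, ?_⟩
      change (f (f t), j) ∈ p.core.ac
      rw [hf.inv]
      exact htj) n h8 (by
        intro h
        rw [h1] at h
        have := h.2.2
        rw [ixm_inr, hf.inv] at this
        exact h6 this)
    refine ⟨k, v, ?_, ?_, ?_, h12⟩
    · rw [(am_x_low hf hq1 (i := Sum.inr (t, n)) ht).1]
      exact h9
    · rw [(am_x_low hf hq1 (i := Sum.inl j) h7.1).1]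
      exact h10
    · rw [am_g_low hq1 h7.2.2, ← h7.2.1]
      exact h11
  · refine ⟨?_, fun n v hn hv => ?_⟩
    · rw [hq2]
      exact Or.inl hxp
    · by_cases hγ : x.γ < β
      · rw [am_g_low hq1 hγ] at hv
        obtain ⟨h3, h4⟩ := hle'.2 (Prm.cm f x) (by
          rw [h2]
          exact ⟨x, ⟨hxp, hγ⟩, rfl⟩)
        obtain ⟨l, h5, h6⟩ := h4 n v (by
          rw [h1]
          change ((resCore β f p.core).g x.γ).length ≤ n
          rw [resCore_g hγ]
          exact hn) hv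
        exact ⟨l, am_claim hf hS hr h1 hle hq1 hq2 hγ ((hW.2 x hxp).2 n l)
          ((hp x hxp).1 n l) h5, h6⟩
      · rw [am_g_high hq1 hγ] at hv
        exact absurd (get_lt hv) (not_lt.2 hn)

theorem am_le' (hf : Cp β S f) (hS : Within S Set.univ p) (hr : PB β r)
    (h1 : p'.core = resCore β f p.core)
    (hle : Le r p') (hq1 : q.core = amCore β f p.core r.core)
    (hq2 : q.prom = p.prom ∪ (r.prom ∪ {y ∈ Prm.cm f '' r.prom | Tot y.γ y.c})) : Le q r := by
  have hW := within_iff.1 hS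
  have hrW := within_iff.1 (pb_iff.1 hr).1
  have hle' := le_iff.1 hle
  rw [le_iff]
  refine ⟨⟨fun i => ?_, fun γ => ?_, ?_, ?_, ?_, ?_⟩, fun x hxp => ?_⟩
  · by_cases hi0 : r.core.x i = []
    · rw [hi0]
      exact List.nil_prefix
    · rw [am_x_in hq1 (hrW.1.x i hi0)]
  · by_cases hi0 : r.core.g γ = []
    · rw [hi0]
      exact List.nil_prefix
    · rw [am_g_low hq1 (hrW.1.g γ hi0)]
  · rw [hq1]
    exact fun _ h => Or.inr (Or.inl h)
  · rw [hq1]
    exact fun _ h => Or.inr (Or.inl h)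
  · intro i k _ hik n h5 h6
    obtain ⟨h3, h4⟩ := hrW.1.z i k hik
    rw [am_x_in hq1 h3] at h5
    rw [am_x_in hq1 (i := Sum.inl k) h4] at h6
    exact ⟨h5, h6⟩
  · intro t j htj n h5 h6
    exfalso
    obtain ⟨h3, h4⟩ := hrW.1.ac t j htj
    apply h6
    rw [hq1] at h5
    rcases h5 with h5 | h5 | h5
    · have ht : t ∈ S := (hW.1.z _ _ h5).1
      apply hle'.1.z
      rw [h1]
      refine ⟨h3, h4, ?_⟩
      rw [ixm_inr, hf.fix t ht h3]
      exact h5
    · exact h5
    · have h7 := h5.1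
      rw [ixm_inr] at h7
      have h8 : f t ∈ TB β := (hrW.1.z _ _ h7).1
      rw [hf.sep t h3 h8] at h7
      exact h7
  · refine ⟨?_, fun n v hn hv => ?_⟩
    · rw [hq2]
      exact Or.inr (Or.inl hxp)
    · rw [am_g_low hq1 (hrW.2 x hxp).1] at hv
      exact absurd (get_lt hv) (not_lt.2 hn)

end am

end

/-- The restriction of a condition to `β`. -/
theorem exists_red (β : Om) {p : Pre} (hp : Good p) {m : ℕ} (hm : Norm p.core m) :
    ∃ p', PB β p' ∧ (∀ c, Within (TB β) (Set.Iio β) c → Le p c → Le p' c) ∧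
      ∀ r, PB β r → Le r p' → ∃ q, Good q ∧ Le q p ∧ Le q r ∧
        (∀ γ, ¬ γ < β → q.core.g γ = p.core.g γ) ∧ ∀ x ∈ q.prom, ¬ x.γ < β → x ∈ p.prom := by
  obtain ⟨S, J, hS, hJ, hW⟩ := exists_within p
  have hW' : Within S Set.univ p := hW.mono subset_rfl (Set.subset_univ _)
  obtain ⟨f, hf⟩ := exists_cp β hS
  obtain ⟨p', h1, h2⟩ := exists_res β f p
  refine ⟨p', res_pb hf hp hW' h1 h2, fun c hc hle => res_le hf hW' h1 h2 hc hle,
    fun r hr hle => ?_⟩
  obtain ⟨q, hq1, hq2⟩ := exists_am β f p r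
  refine ⟨q, ?_, am_le hf hp hW' hm hr h1 h2 hle hq1 hq2, am_le' hf hW' hr h1 hle hq1 hq2,
    fun γ hγ => am_g_high hq1 hγ, fun x hx hγ => ?_⟩
  · intro x hx
    rw [hq2] at hx
    rcases hx with hx | hx | hx
    · exact hp x hx
    · exact (pb_iff.1 hr).2 x hx
    · exact hx.2
  · have hrW := within_iff.1 (pb_iff.1 hr).1
    rw [hq2] at hx
    rcases hx with hx | hx | hx
    · exact hx
    · exact absurd (hrW.2 x hx).1 hγ
    · obtain ⟨⟨y, hy, rfl⟩, -⟩ := hx
      exact absurd (hrW.2 y hy).1 hγ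

end Pool.Agent.W876.Sel
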