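import Mathlib
import Pool.Agent.W876.Sel.Red

/-!
# Extending conditions
-/

namespace Pool.Agent.W876.Sel

open Cardinal

theorem good_setCore {p : Pre} {a : Core} : Good (p.setCore a) ↔ Good p := by
  unfold Good
  rw [prom_setCore]

theorem le_setCore {p : Pre} {a : Core} (hg : a.g = p.core.g) (h : CLe a p.core) :
    Le (p.setCore a) p := by
  rw [le_iff, core_setCore, prom_setCore]
  refine ⟨h, fun x hx => ⟨hx, fun n v hn hv => ?_⟩⟩
  rw [hg] at hv
  exact absurd (get_lt hv) (not_lt.2 hn)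

/-- the sequence, made longer -/
def padL (m : ℕ) (l : List Bool) : List Bool := l ++ List.replicate (m - l.length) false

theorem on_padL {m n : ℕ} {l : List Bool} : On (padL m l) n ↔ On l n := by
  refine ⟨fun h => ?_, fun h => on_mono (List.prefix_append _ _) h⟩
  by_cases hn : n < l.length
  · exact on_of_lt (List.prefix_append _ _) hn h
  · exfalso
    unfold On padL at h
    rw [List.getElem?_append_right (not_lt.1 hn), List.getElem?_replicate] at h
    split_ifs at h
    · simp at h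

theorem length_padL {m : ℕ} {l : List Bool} (h : l.length ≤ m) : (padL m l).length = m := by
  simp only [padL, List.length_append, List.length_replicate]
  omega

/-- the same condition apart from the lengths of the sequences -/
structure Pd (q p : Pre) : Prop where
  good : Good q
  le : Le q p
  prom : q.prom = p.prom
  g : q.core.g = p.core.g
  z : q.core.z = p.core.z
  ac : q.core.ac = p.core.ac

open Classical in
theorem exists_norm {p : Pre} (hp : Good p) {s : Set Ix} (hs : s.Finite) (M : ℕ) :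
    ∃ q m, Pd q p ∧ M ≤ m ∧ Norm q.core m ∧ (∀ i ∈ s, (q.core.x i).length = m) ∧
      ∀ i n, On (q.core.x i) n ↔ On (p.core.x i) n := by
  let s' : Set Ix := s ∪ ({i | p.core.x i ≠ []} ∪ (Prod.fst '' p.core.z ∪
    (fun q : Ix × Om => Sum.inl q.2) '' p.core.z))
  have hs' : s'.Finite := hs.union (p.core.hx.union ((p.core.hz.image _).union
    (p.core.hz.image _)))
  obtain ⟨B, hB⟩ := (hs'.image fun i => (p.core.x i).length).bddAbove
  have hB' : ∀ i ∈ s', (p.core.x i).length ≤ max M B := fun i hi =>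
    (hB ⟨i, hi, rfl⟩).trans (le_max_right _ _)
  have hout : ∀ i, i ∉ s' → p.core.x i = [] := by
    intro i hi
    by_contra hcon
    exact hi (Or.inr (Or.inl hcon))
  let a : Core :=
    { x := fun i => if i ∈ s' then padL (max M B) (p.core.x i) else p.core.x i
      g := p.core.g
      z := p.core.z
      ac := p.core.ac
      hx := hs'.subset fun i hi => by
        by_contra hcon
        exact hi (by simp only [if_neg hcon, hout i hcon])
      hg := p.core.hg
      hz := p.core.hz
      hac := p.core.hac }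
  have hax : ∀ i ∈ s', a.x i = padL (max M B) (p.core.x i) := fun i hi => if_pos hi
  have hax' : ∀ i, i ∉ s' → a.x i = p.core.x i := fun i hi => if_neg hi
  have hon : ∀ i n, On (a.x i) n ↔ On (p.core.x i) n := by
    intro i n
    by_cases hi : i ∈ s'
    · rw [hax i hi, on_padL]
    · rw [hax' i hi]
  have hlen : ∀ i ∈ s', (a.x i).length = max M B := by
    intro i hi
    rw [hax i hi, length_padL (hB' i hi)]
  have hle : CLe a p.core := by
    refine ⟨fun i => ?_, fun _ => List.prefix_rfl, subset_rfl, subset_rfl,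
      fun i j _ hij n h1 h2 => ⟨(hon _ _).1 h1, (hon _ _).1 h2⟩,
      fun t j _ n h1 h2 => absurd h1 h2⟩
    by_cases hi : i ∈ s'
    · rw [hax i hi]
      exact List.prefix_append _ _
    · rw [hax' i hi]
  refine ⟨p.setCore a, max M B, ⟨good_setCore.2 hp, le_setCore rfl hle, prom_setCore _ _,
    ?_, ?_, ?_⟩, le_max_left _ _, ?_, ?_, ?_⟩
  · rw [core_setCore]
  · rw [core_setCore]
  · rw [core_setCore]
  · rw [core_setCore]
    refine ⟨fun i hi => ?_, fun i k hik => ⟨hlen _ ?_, hlen _ ?_⟩⟩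
    · by_cases hi' : i ∈ s'
      · exact hlen i hi'
      · exact absurd (by rw [hax' i hi', hout i hi']) hi
    · exact Or.inr (Or.inr (Or.inl ⟨_, hik, rfl⟩))
    · exact Or.inr (Or.inr (Or.inr ⟨_, hik, rfl⟩))
  · intro i hi
    rw [core_setCore]
    exact hlen i (Or.inl hi)
  · rw [core_setCore]
    exact hon

open Classical in
theorem exists_add {p : Pre} (hp : Good p) {s : Set Ix} (hs : s.Finite) (M : ℕ)
    (hsep : ∀ i j, (i, j) ∈ p.core.z → i ∈ s → (Sum.inl j : Ix) ∈ s → i = Sum.inl j) :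
    ∃ q k, Pd q p ∧ M ≤ k ∧ ∀ i ∈ s, On (q.core.x i) k := by
  obtain ⟨p0, m, hp0, hM, hnorm, hlen, hon⟩ := exists_norm hp hs M
  let a : Core :=
    { x := fun i => if i ∈ s then p0.core.x i ++ [true] else p0.core.x i
      g := p0.core.g
      z := p0.core.z
      ac := p0.core.ac
      hx := (hs.union p0.core.hx).subset fun i hi => by
        by_contra hcon
        simp only [Set.mem_union, not_or, Set.mem_ofPred_eq, not_not] at hcon
        exact hi (by simp only [if_neg hcon.1, hcon.2])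
      hg := p0.core.hg
      hz := p0.core.hz
      hac := p0.core.hac }
  have hax : ∀ i ∈ s, a.x i = p0.core.x i ++ [true] := fun i hi => if_pos hi
  have hax' : ∀ i, i ∉ s → a.x i = p0.core.x i := fun i hi => if_neg hi
  have hpre : ∀ i, p0.core.x i <+: a.x i := by
    intro i
    by_cases hi : i ∈ s
    · rw [hax i hi]
      exact List.prefix_append _ _
    · rw [hax' i hi]
  have hle : CLe a p0.core := by
    refine ⟨hpre, fun _ => List.prefix_rfl, subset_rfl, subset_rfl,
      fun i j hne hij n h1 h2 => ?_, fun t j _ n h1 h2 => absurd h1 h2⟩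
    obtain ⟨h3, h4⟩ := hnorm.z i j hij
    by_cases hn : n < m
    · exact ⟨on_of_lt (hpre i) (h3 ▸ hn) h1, on_of_lt (hpre _) (h4 ▸ hn) h2⟩
    · exfalso
      have h5 : i ∈ s := by
        by_contra hcon
        rw [hax' i hcon] at h1
        have := on_lt h1
        omega
      have h6 : (Sum.inl j : Ix) ∈ s := by
        by_contra hcon
        rw [hax' _ hcon] at h2
        have := on_lt h2
        omega
      rw [hp0.z] at hij
      exact hne (hsep i j hij h5 h6)
  have hle' : Le (p0.setCore a) p0 := le_setCore rfl hle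
  refine ⟨p0.setCore a, m, ⟨good_setCore.2 hp0.good, le_trans' hle' hp0.le, ?_, ?_, ?_, ?_⟩,
    hM, ?_⟩
  · rw [prom_setCore, hp0.prom]
  · rw [core_setCore]
    exact hp0.g
  · rw [core_setCore]
    exact hp0.z
  · rw [core_setCore]
    exact hp0.ac
  · intro i hi
    rw [core_setCore, hax i hi]
    unfold On
    rw [List.getElem?_append_right (hlen i hi).le, hlen i hi]
    simp

/-- a total name is decided by an extension which only changes the part below `β` -/
theorem exists_decide {β : Om} {c : ℕ → ℕ → Pre} (hc : Tot β c) {p : Pre} (hp : Good p) (n : ℕ) :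
    ∃ q l, Good q ∧ Le q p ∧ Le q (c n l) ∧ (∀ γ, ¬ γ < β → q.core.g γ = p.core.g γ) ∧
      ∀ x ∈ q.prom, ¬ x.γ < β → x ∈ p.prom := by
  obtain ⟨p0, m, hp0, -, hnorm, -, -⟩ := exists_norm hp Set.finite_empty 0
  obtain ⟨p', h1, -, h2⟩ := exists_red β hp0.good hnorm
  obtain ⟨l, r, hr, h3, h4⟩ := hc.2 n p' h1
  obtain ⟨q, hq, h5, h6, h7, h8⟩ := h2 r hr h3
  refine ⟨q, l, hq, le_trans' h5 hp0.le, le_trans' h6 h4, fun γ hγ => ?_, fun x hx hγ => ?_⟩
  · rw [h7 γ hγ, hp0.g]
  · rw [← hp0.prom]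
    exact h8 x hx hγ

theorem exists_decide_fin {β : Om} (L : ℕ) {Φ : Set Prm} (hΦ : Φ.Finite) {p : Pre} (hp : Good p)
    (h : ∀ x ∈ Φ, Tot β x.c) :
    ∃ q, Good q ∧ Le q p ∧ (∀ x ∈ Φ, ∃ l, Le q (x.c L l)) ∧
      (∀ γ, ¬ γ < β → q.core.g γ = p.core.g γ) ∧ ∀ x ∈ q.prom, ¬ x.γ < β → x ∈ p.prom := by
  induction Φ, hΦ using Set.Finite.induction_on with
  | empty => exact ⟨p, hp, le_rfl' p, fun x hx => absurd hx (Set.notMem_empty _), fun _ _ => rfl,
      fun x hx _ => hx⟩
  | @insert x Φ _ _ ih =>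
    obtain ⟨q, hq, h1, h2, h3, h4⟩ := ih fun y hy => h y (Set.mem_insert_of_mem _ hy)
    obtain ⟨q', l, hq', h5, h6, h7, h8⟩ := exists_decide (h x (Set.mem_insert _ _)) hq L
    refine ⟨q', hq', le_trans' h5 h1, ?_, fun γ hγ => ?_, fun y hy hγ => h4 y (h8 y hy hγ) hγ⟩
    · rintro y (rfl | hy)
      · exact ⟨l, h6⟩
      · obtain ⟨l', hl'⟩ := h2 y hy
        exact ⟨l', le_trans' h5 hl'⟩
    · rw [h7 γ hγ, h3 γ hγ]

open Classical in
/-- the core with one more value of `g_β` -/
noncomputable def gCore (a : Core) (β : Om) (v : ℕ) : Core :=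
  { x := a.x
    g := fun γ => if γ = β then a.g γ ++ [v] else a.g γ
    z := a.z
    ac := a.ac
    hx := a.hx
    hg := ((Set.finite_singleton β).union a.hg).subset fun i hi => by
      by_contra hcon
      simp only [Set.mem_union, Set.mem_singleton_iff, not_or, Set.mem_ofPred_eq, not_not] at hcon
      exact hi (by simp only [if_neg hcon.1, hcon.2])
    hz := a.hz
    hac := a.hac }

theorem gCore_self {a : Core} {β : Om} {v : ℕ} : (gCore a β v).g β = a.g β ++ [v] := if_pos rfl

theorem gCore_ne {a : Core} {β γ : Om} {v : ℕ} (h : γ ≠ β) : (gCore a β v).g γ = a.g γ := if_neg h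

theorem gCore_pre {a : Core} {β γ : Om} {v : ℕ} : a.g γ <+: (gCore a β v).g γ := by
  by_cases h : γ = β
  · subst h
    rw [gCore_self]
    exact List.prefix_append _ _
  · rw [gCore_ne h]

theorem gCore_cle {a c : Core} {β : Om} {v : ℕ} (h : CLe a c) : CLe (gCore a β v) c := by
  refine ⟨h.x, fun γ => (h.g γ).trans gCore_pre, h.z, h.ac, h.fr, fun t j htj n h1 h2 => ?_⟩
  obtain ⟨k, w, h3, h4, h5, h6⟩ := h.rq t j htj n h1 h2
  exact ⟨k, w, h3, h4, get_mono gCore_pre h5, h6⟩

theorem gCore_le {q : Pre} {β : Om} {v : ℕ} {c : Pre} (hc : Within Set.univ (Set.Iio β) c) :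
    Le q c → Le (q.setCore (gCore q.core β v)) c := by
  induction c using Pre.ind with
  | h c ih =>
    intro h
    rw [le_iff] at h ⊢
    rw [within_iff] at hc
    rw [core_setCore, prom_setCore]
    refine ⟨gCore_cle h.1, fun x hx => ⟨(h.2 x hx).1, fun n w hn hw => ?_⟩⟩
    obtain ⟨h1, h2⟩ := hc.2 x hx
    rw [gCore_ne (ne_of_lt h1)] at hw
    obtain ⟨l, h3, h4⟩ := (h.2 x hx).2 n w hn hw
    exact ⟨l, ih x hx n l (h2 n l) h3, h4⟩

theorem exists_g_succ (β : Om) {p : Pre} (hp : Good p) :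
    ∃ q, Good q ∧ Le q p ∧ (p.core.g β).length < (q.core.g β).length := by
  obtain ⟨q, hq, h1, h2, h3, h4⟩ := exists_decide_fin (β := β) (p.core.g β).length
    (Φ := {x ∈ p.prom | x.γ = β}) ((prom_finite p).subset (Set.sep_subset _ _)) hp (by
      rintro x ⟨hx, rfl⟩
      exact hp x hx)
  choose! l hl using h2
  obtain ⟨B, hB⟩ := (((prom_finite p).subset (Set.sep_subset _ (fun x => x.γ = β))).image
    fun x => x.m (p.core.g β).length (l x)).bddAbove
  have hself : (gCore q.core β B).g β = p.core.g β ++ [B] := by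
    rw [gCore_self, h3 β (lt_irrefl _)]
  refine ⟨q.setCore (gCore q.core β B), good_setCore.2 hq, ?_, ?_⟩
  · have h1' := le_iff.1 h1
    rw [le_iff, core_setCore, prom_setCore]
    refine ⟨gCore_cle h1'.1, fun x hx => ⟨(h1'.2 x hx).1, fun n w hn hw => ?_⟩⟩
    have hW : ∀ {n l}, x.γ ≤ β → Within Set.univ (Set.Iio β) (x.c n l) := fun hβ =>
      (pb_iff.1 ((hp x hx).1 _ _)).1.mono (Set.subset_univ _) (Set.Iio_subset_Iio hβ)
    rcases lt_trichotomy x.γ β with hγ | hγ | hγ
    · rw [gCore_ne hγ.ne] at hw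
      obtain ⟨l', h5, h6⟩ := (h1'.2 x hx).2 n w hn hw
      exact ⟨l', gCore_le (hW hγ.le) h5, h6⟩
    · have hx' : x ∈ {x ∈ p.prom | x.γ = β} := ⟨hx, hγ⟩
      rw [hγ, hself] at hw
      rw [hγ] at hn
      have hn' : n = (p.core.g β).length := by
        have := get_lt hw
        rw [List.length_append, List.length_singleton] at this
        omega
      subst hn'
      have hw' : w = B := by
        rw [List.getElem?_append_right le_rfl] at hw
        simpa using hw.symm
      subst hw'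
      exact ⟨l x, gCore_le (hW hγ.le) (hl x hx'), hB ⟨x, hx', rfl⟩⟩
    · rw [gCore_ne hγ.ne', h3 _ (not_lt.2 hγ.le)] at hw
      exact absurd (get_lt hw) (not_lt.2 hn)
  · rw [core_setCore, hself, List.length_append, List.length_singleton]
    omega

theorem exists_g (β : Om) (n : ℕ) {p : Pre} (hp : Good p) :
    ∃ q, Good q ∧ Le q p ∧ n < (q.core.g β).length := by
  induction n with
  | zero =>
    obtain ⟨q, h1, h2, h3⟩ := exists_g_succ β hp
    exact ⟨q, h1, h2, by omega⟩
  | succ n ih =>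
    obtain ⟨q, h1, h2, h3⟩ := ih
    obtain ⟨q', h4, h5, h6⟩ := exists_g_succ β h1
    exact ⟨q', h4, le_trans' h5 h2, by omega⟩

theorem exists_val (β : Om) (n : ℕ) {p : Pre} (hp : Good p) :
    ∃ q v, Good q ∧ Le q p ∧ (q.core.g β)[n]? = some v := by
  obtain ⟨q, h1, h2, h3⟩ := exists_g β n hp
  exact ⟨q, (q.core.g β)[n], h1, h2, List.getElem?_eq_getElem h3⟩

/-- adding a promise -/
theorem exists_promise {p : Pre} (hp : Good p) {x : Prm} (hx : Tot x.γ x.c) :
    ∃ q, Good q ∧ Le q p ∧ x ∈ q.prom := by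
  obtain ⟨q, h1, h2⟩ := exists_pre p.core (insert x p.prom) ((prom_finite p).insert x)
  refine ⟨q, ?_, ?_, ?_⟩
  · intro y hy
    rw [h2] at hy
    rcases hy with rfl | hy
    · exact hx
    · exact hp y hy
  · rw [le_iff, h1, h2]
    exact ⟨CLe.rfl' _, fun y hy => ⟨Or.inr hy, fun n v hn hv =>
      absurd (get_lt hv) (not_lt.2 hn)⟩⟩
  · rw [h2]
    exact Set.mem_insert _ _

/-- adding an activity -/
theorem exists_ac {p : Pre} (hp : Good p) (t : Tk) (j : Om) :
    ∃ q, Good q ∧ Le q p ∧ (t, j) ∈ q.core.ac := by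
  let a : Core := { p.core with ac := insert (t, j) p.core.ac, hac := p.core.hac.insert _ }
  refine ⟨p.setCore a, good_setCore.2 hp, le_setCore rfl ⟨fun _ => List.prefix_rfl,
    fun _ => List.prefix_rfl, subset_rfl, Set.subset_insert _ _, fun _ _ _ _ _ h1 h2 => ⟨h1, h2⟩,
    fun _ _ _ _ h1 h2 => absurd h1 h2⟩, ?_⟩
  rw [core_setCore]
  exact Set.mem_insert _ _

/-- adding a pair -/
theorem exists_z {p : Pre} (hp : Good p) (i : Ix) (j : Om)
    (h : ∀ t n, i = Sum.inr (t, n) → (i, j) ∉ p.core.z → (t, j) ∈ p.core.ac →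
      ∃ k v, On (p.core.x i) k ∧ On (p.core.x (Sum.inl j)) k ∧
        (p.core.g (t.1 j))[n]? = some v ∧ v ≤ k) :
    ∃ q, Good q ∧ Le q p ∧ (i, j) ∈ q.core.z := by
  let a : Core := { p.core with z := insert (i, j) p.core.z, hz := p.core.hz.insert _ }
  refine ⟨p.setCore a, good_setCore.2 hp, le_setCore rfl ⟨fun _ => List.prefix_rfl,
    fun _ => List.prefix_rfl, Set.subset_insert _ _, subset_rfl, fun _ _ _ _ _ h1 h2 => ⟨h1, h2⟩,
    fun t j' htj n h1 h2 => ?_⟩, ?_⟩
  · rcases h1 with h1 | h1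
    · obtain ⟨h3, h4⟩ := Prod.mk.inj h1
      subst h3 h4
      exact h t n rfl h2 htj
    · exact absurd h1 h2
  · rw [core_setCore]
    exact Set.mem_insert _ _

theorem exists_z_inl {p : Pre} (hp : Good p) (i j : Om) :
    ∃ q, Good q ∧ Le q p ∧ (Sum.inl i, j) ∈ q.core.z :=
  exists_z hp _ _ (by
    intro t n h
    exact absurd h (by simp))

theorem exists_z_inr {p : Pre} (hp : Good p) (t : Tk) (n : ℕ) (j : Om) :
    ∃ q, Good q ∧ Le q p ∧ (Sum.inr (t, n), j) ∈ q.core.z := by
  obtain ⟨q, v, h1, h2, h3⟩ := exists_val (t.1 j) n hp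
  by_cases hz : (Sum.inr (t, n), j) ∈ q.core.z
  · exact ⟨q, h1, h2, hz⟩
  · obtain ⟨q', k, h4, h5, h6⟩ := exists_add h1 (s := {Sum.inr (t, n), Sum.inl j})
      (by simp) v (by
        rintro i j' hij (rfl | rfl) hj'
        · rcases hj' with hj' | hj'
          · exact absurd hj' (by simp)
          · rw [Set.mem_singleton_iff, Sum.inl.injEq] at hj'
            subst hj'
            exact absurd hij hz
        · rcases hj' with hj' | hj'
          · exact absurd hj' (by simp)
          · rw [Set.mem_singleton_iff, Sum.inl.injEq] at hj'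
            subst hj'
            rfl)
    obtain ⟨q'', h7, h8, h9⟩ := exists_z h4.good (Sum.inr (t, n)) j (by
      intro t' n' he _ _
      obtain ⟨rfl, rfl⟩ := Prod.mk.inj (Sum.inr.inj he)
      refine ⟨k, v, h6 _ (Set.mem_insert _ _), h6 _ (Set.mem_insert_of_mem _ rfl), ?_, h5⟩
      rw [h4.g]
      exact h3)
    exact ⟨q'', h7, le_trans' h8 (le_trans' h4.le h2), h9⟩

theorem exists_on {p : Pre} (hp : Good p) (i : Ix) (M : ℕ) :
    ∃ q k, Good q ∧ Le q p ∧ M ≤ k ∧ On (q.core.x i) k := by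
  obtain ⟨q, k, h1, h2, h3⟩ := exists_add hp (s := {i}) (by simp) M (by
    rintro i' j' _ hi hj
    rw [Set.mem_singleton_iff] at hi hj
    rw [hi, hj])
  exact ⟨q, k, h1.good, h1.le, h2, h3 i rfl⟩

end Pool.Agent.W876.Sel
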