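import Mathlib
import Pool.Agent.W876.Sel.Dens

/-!
# Names are total below some `β`
-/

namespace Pool.Agent.W876.Sel

open Cardinal Set

theorem mk_Om : #Om = ℵ_ 1 := Cardinal.mk_ord_toType _

theorem Iio_countable (x : Om) : (Iio x).Countable := by
  have h : #(Iio x) < #Om := Cardinal.mk_Iio_lt x (by
    rw [mk_Om]
    exact (Ordinal.type_toType _).symm)
  have h2 : #(Iio x) < Order.succ Cardinal.aleph0 := by
    rw [Cardinal.succ_aleph0]
    exact h.trans_le mk_Om.le
  rw [← Cardinal.le_aleph0_iff_set_countable]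
  exact Order.lt_succ_iff.1 h2

theorem Iic_countable (x : Om) : (Iic x).Countable := by
  rw [← Iio_union_right]
  exact (Iio_countable x).union (countable_singleton x)

theorem countable_bdd {s : Set Om} (hs : s.Countable) : ∃ γ, ∀ x ∈ s, x < γ := by
  by_contra hcon
  push Not at hcon
  have h : (univ : Set Om) ⊆ ⋃ x ∈ s, Iic x := fun γ _ => by
    obtain ⟨x, hx, h⟩ := hcon γ
    exact mem_iUnion₂.2 ⟨x, hx, h⟩
  have := om_uncountable
  exact not_countable (α := Om)
    (countable_univ_iff.1 ((hs.biUnion fun x _ => Iic_countable x).mono h))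

/-- a place closed under countably many tasks -/
theorem exists_club {S : Set Tk} {J : Set Om} (hS : S.Countable) (hJ : J.Countable) :
    ∃ β : Om, S ⊆ TB β ∧ J ⊆ Iio β := by
  obtain ⟨b0, hb0⟩ := countable_bdd hJ
  have hstep : ∀ b : Om, ∃ b', b < b' ∧ ∀ t ∈ S, ∀ j < b, t.1 j < b' := by
    intro b
    have h1 : (⋃ t ∈ S, (fun j => t.1 j) '' Iio b).Countable :=
      hS.biUnion fun t _ => (Iio_countable b).image _
    obtain ⟨b', hb'⟩ := countable_bdd (h1.union (countable_singleton b))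
    refine ⟨b', hb' b (Or.inr rfl), fun t ht j hj => hb' _ (Or.inl ?_)⟩
    exact mem_iUnion₂.2 ⟨t, ht, j, hj, rfl⟩
  choose nx hnx1 hnx2 using hstep
  let b : ℕ → Om := fun n => nx^[n] b0
  have hbs : ∀ n, b (n + 1) = nx (b n) := fun n => Function.iterate_succ_apply' _ _ _
  obtain ⟨γ, hγ⟩ := countable_bdd (countable_range b)
  have hne : {γ : Om | ∀ n, b n < γ}.Nonempty := ⟨γ, fun n => hγ _ ⟨n, rfl⟩⟩
  let β : Om := wellFounded_lt.min {γ : Om | ∀ n, b n < γ} hne
  have hβ : ∀ n, b n < β := wellFounded_lt.min_mem {γ : Om | ∀ n, b n < γ} hne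
  have hβ' : ∀ j < β, ∃ n, j < b n := by
    intro j hj
    by_contra hcon
    push Not at hcon
    refine wellFounded_lt.not_lt_min {γ : Om | ∀ n, b n < γ} (x := j) ?_ hj
    intro n
    have := hcon (n + 1)
    rw [hbs] at this
    exact (hnx1 _).trans_le this
  refine ⟨β, fun t ht j hj => ?_, fun j hj => ?_⟩
  · obtain ⟨n, hn⟩ := hβ' j hj
    have := hnx2 (b n) t ht j hn
    rw [← hbs] at this
    exact this.trans (hβ _)
  · exact (hb0 j hj).trans (hβ 0)

/-- names which are total are total below some `β` -/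
theorem exists_tot (c : ℕ → ℕ → Pre) (hc : ∀ n l, Good (c n l))
    (hd : ∀ n p, Good p → ∃ l q, Good q ∧ Le q p ∧ Le q (c n l)) : ∃ β, Tot β c := by
  choose S J hS hJ hW using fun n l => exists_within (c n l)
  obtain ⟨β, h1, h2⟩ := exists_club
    (countable_iUnion fun n => countable_iUnion fun l => hS n l)
    (countable_iUnion fun n => countable_iUnion fun l => hJ n l)
  have hWβ : ∀ n l, Within (TB β) (Iio β) (c n l) := fun n l => (hW n l).mono
    (fun t ht => h1 (mem_iUnion₂.2 ⟨n, l, ht⟩)) (fun t ht => h2 (mem_iUnion₂.2 ⟨n, l, ht⟩))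
  refine ⟨β, fun n l => pb_iff.2 ⟨hWβ n l, hc n l⟩, fun n q hq => ?_⟩
  obtain ⟨l, r, hr, h3, h4⟩ := hd n q (pb_iff.1 hq).2
  obtain ⟨r', m, hr', -, hnorm, -, -⟩ := exists_norm hr Set.finite_empty 0
  obtain ⟨p', h5, h6, -⟩ := exists_red β hr'.good hnorm
  exact ⟨l, p', h5, h6 _ (pb_iff.1 hq).1 (le_trans' hr'.le h3),
    h6 _ (hWβ n l) (le_trans' hr'.le h4)⟩

end Pool.Agent.W876.Sel
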