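import Mathlib
import Pool.Agent.Helper126.Fact
import Pool.Agent.W876.Two.Gen
import Pool.Agent.W876.Sel.Club

/-!
# The countable chain condition
-/

namespace Pool.Agent.W876.Sel

open Cardinal Set

/-- The conditions. -/
def Cd : Type := {p : Pre // Good p}

instance : Preorder Cd where
  le q p := Le q.1 p.1
  le_refl p := le_rfl' p.1
  le_trans _ _ _ h h' := le_trans' h h'

theorem cd_le {q p : Cd} : q ≤ p ↔ Le q.1 p.1 := Iff.rfl

/-- finite sets of tasks and ordinals containing those of `p` -/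
structure Sup (p : Pre) (TT : Set Tk) (YY GG : Set Om) : Prop where
  x : ∀ i, p.core.x i ≠ [] → i ∈ IxIn TT YY
  z : ∀ i j, (i, j) ∈ p.core.z → i ∈ IxIn TT YY ∧ j ∈ YY
  ac : ∀ t j, (t, j) ∈ p.core.ac → t ∈ TT ∧ j ∈ YY
  g : ∀ γ, p.core.g γ ≠ [] → γ ∈ GG
  pr : ∀ x ∈ p.prom, x.γ ∈ GG

theorem exists_sup (p : Pre) : ∃ (TT : Finset Tk) (YY GG : Finset Om), Sup p TT YY GG := by
  classical
  have h1 : {i : Ix | p.core.x i ≠ [] ∨ ∃ k, (i, k) ∈ p.core.z}.Finite := by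
    refine (p.core.hx.union (p.core.hz.image Prod.fst)).subset ?_
    rintro i (h | ⟨k, h⟩)
    · exact Or.inl h
    · exact Or.inr ⟨_, h, rfl⟩
  have hT : (((fun t : Tk × ℕ => t.1) '' (Sum.inr ⁻¹' {i : Ix | p.core.x i ≠ [] ∨
      ∃ k, (i, k) ∈ p.core.z})) ∪ Prod.fst '' p.core.ac).Finite :=
    ((h1.preimage Sum.inr_injective.injOn).image _).union (p.core.hac.image _)
  have hY : ((Sum.inl ⁻¹' {i : Ix | p.core.x i ≠ [] ∨ ∃ k, (i, k) ∈ p.core.z}) ∪
      (Prod.snd '' p.core.ac ∪ Prod.snd '' p.core.z)).Finite :=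
    (h1.preimage Sum.inl_injective.injOn).union ((p.core.hac.image _).union (p.core.hz.image _))
  have hG : ({γ | p.core.g γ ≠ []} ∪ Prm.γ '' p.prom).Finite :=
    p.core.hg.union ((prom_finite p).image _)
  refine ⟨hT.toFinset, hY.toFinset, hG.toFinset, ?_⟩
  rw [Set.Finite.coe_toFinset, Set.Finite.coe_toFinset, Set.Finite.coe_toFinset]
  have h2 : ∀ i : Ix, (p.core.x i ≠ [] ∨ ∃ k, (i, k) ∈ p.core.z) → i ∈ IxIn
      (((fun t : Tk × ℕ => t.1) '' (Sum.inr ⁻¹' {i : Ix | p.core.x i ≠ [] ∨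
      ∃ k, (i, k) ∈ p.core.z})) ∪ Prod.fst '' p.core.ac)
      ((Sum.inl ⁻¹' {i : Ix | p.core.x i ≠ [] ∨ ∃ k, (i, k) ∈ p.core.z}) ∪
      (Prod.snd '' p.core.ac ∪ Prod.snd '' p.core.z)) := by
    rintro (j | t) h
    · exact Or.inl h
    · exact Or.inl ⟨t, h, rfl⟩
  exact ⟨fun i hi => h2 i (Or.inl hi),
    fun i k hik => ⟨h2 i (Or.inr ⟨k, hik⟩), Or.inr (Or.inr ⟨_, hik, rfl⟩)⟩,
    fun t j htj => ⟨Or.inr ⟨_, htj, rfl⟩, Or.inr (Or.inl ⟨_, htj, rfl⟩)⟩,
    fun γ hγ => Or.inl hγ, fun x hx => Or.inr ⟨x, hx, rfl⟩⟩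

/-- `u` is the union of `p` with `q` -/
theorem agr_le {p q u : Pre} {TT TT' : Set Tk} {YY GG YY' GG' : Set Om} (hp : Sup p TT YY GG)
    (hq : Sup q TT' YY' GG')
    (hx : ∀ i ∈ IxIn TT YY, u.core.x i = p.core.x i)
    (hg : ∀ γ ∈ GG, u.core.g γ = p.core.g γ)
    (hz : ∀ i, i ∈ u.core.z ↔ i ∈ p.core.z ∨ i ∈ q.core.z)
    (hac : p.core.ac ⊆ u.core.ac) (hpr : p.prom ⊆ u.prom)
    (hagr : ∀ t ∈ TT ∩ TT', ∀ j ∈ YY ∩ YY', ∀ n, (Sum.inr (t, n), j) ∈ q.core.z →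
      (Sum.inr (t, n), j) ∈ p.core.z) : Le u p := by
  rw [le_iff]
  refine ⟨⟨fun i => ?_, fun γ => ?_, fun i hi => (hz i).2 (Or.inl hi), hac,
    fun i j _ hij n h1 h2 => ?_, fun t j htj n h1 h2 => ?_⟩, fun x hxp => ⟨hpr hxp,
      fun n v hn hv => ?_⟩⟩
  · by_cases hi : p.core.x i = []
    · rw [hi]
      exact List.nil_prefix
    · rw [hx i (hp.x i hi)]
  · by_cases hi : p.core.g γ = []
    · rw [hi]
      exact List.nil_prefix
    · rw [hg γ (hp.g γ hi)]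
  · rw [hx i (hp.z i j hij).1] at h1
    rw [hx (Sum.inl j) (hp.z i j hij).2] at h2
    exact ⟨h1, h2⟩
  · exfalso
    rcases (hz _).1 h1 with h3 | h3
    · exact h2 h3
    · obtain ⟨h4, h5⟩ := hp.ac t j htj
      obtain ⟨h6, h7⟩ := hq.z _ _ h3
      exact h2 (hagr t ⟨h4, h6⟩ j ⟨h5, h7⟩ n h3)
  · rw [hg _ (hp.pr x hxp)] at hv
    exact absurd (get_lt hv) (not_lt.2 hn)

open Classical in
theorem exists_union {p q : Pre} (hpg : Good p) (hqg : Good q)
    {TT TT' : Set Tk} {YY GG YY' GG' : Set Om} (hp : Sup p TT YY GG)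
    (hq : Sup q TT' YY' GG')
    (h1 : ∀ i ∈ IxIn TT YY, i ∈ IxIn TT' YY' → p.core.x i = q.core.x i)
    (h2 : ∀ γ ∈ GG ∩ GG', p.core.g γ = q.core.g γ)
    (h3 : ∀ t ∈ TT ∩ TT', ∀ j ∈ YY ∩ YY', ∀ n, (Sum.inr (t, n), j) ∈ p.core.z ↔
      (Sum.inr (t, n), j) ∈ q.core.z) : ∃ u, Good u ∧ Le u p ∧ Le u q := by
  let a : Core :=
    { x := fun i => if i ∈ IxIn TT YY then p.core.x i else q.core.x i
      g := fun γ => if γ ∈ GG then p.core.g γ else q.core.g γ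
      z := p.core.z ∪ q.core.z
      ac := p.core.ac ∪ q.core.ac
      hx := (p.core.hx.union q.core.hx).subset fun i hi => by
        by_contra hcon
        simp only [Set.mem_union, not_or, Set.mem_ofPred_eq, not_not] at hcon
        exact hi (by simp only [hcon.1, hcon.2, ite_self])
      hg := (p.core.hg.union q.core.hg).subset fun i hi => by
        by_contra hcon
        simp only [Set.mem_union, not_or, Set.mem_ofPred_eq, not_not] at hcon
        exact hi (by simp only [hcon.1, hcon.2, ite_self])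
      hz := p.core.hz.union q.core.hz
      hac := p.core.hac.union q.core.hac }
  obtain ⟨u, hu1, hu2⟩ := exists_pre a (p.prom ∪ q.prom) ((prom_finite p).union (prom_finite q))
  have hux : ∀ i, u.core.x i = if i ∈ IxIn TT YY then p.core.x i else q.core.x i := by
    intro i
    rw [hu1]
  have hug : ∀ γ, u.core.g γ = if γ ∈ GG then p.core.g γ else q.core.g γ := by
    intro i
    rw [hu1]
  refine ⟨u, ?_, ?_, ?_⟩
  · intro y hy
    rw [hu2] at hy
    rcases hy with hy | hy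
    · exact hpg y hy
    · exact hqg y hy
  · refine agr_le hp hq (fun i hi => ?_) (fun γ hγ => ?_) (fun i => ?_) ?_ ?_
      fun t ht j hj n h => (h3 t ht j hj n).2 h
    · rw [hux, if_pos hi]
    · rw [hug, if_pos hγ]
    · rw [hu1]
      exact Iff.rfl
    · rw [hu1]
      exact subset_union_left
    · rw [hu2]
      exact subset_union_left
  · refine agr_le hq hp (fun i hi => ?_) (fun γ hγ => ?_) (fun i => ?_) ?_ ?_
      fun t ht j hj n h => (h3 t ⟨ht.2, ht.1⟩ j ⟨hj.2, hj.1⟩ n).1 h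
    · rw [hux]
      by_cases hi' : i ∈ IxIn TT YY
      · rw [if_pos hi', h1 i hi' hi]
      · rw [if_neg hi']
    · rw [hug]
      by_cases hi' : γ ∈ GG
      · rw [if_pos hi', h2 γ ⟨hi', hγ⟩]
      · rw [if_neg hi']
    · rw [hu1]
      exact or_comm
    · rw [hu1]
      exact subset_union_right
    · rw [hu2]
      exact subset_union_right

open Classical in
/-- the data of a condition at a pair -/
noncomputable def dat (p : Pre) (u v : Om ⊕ (Om ⊕ Tk)) :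
    List Bool × List ℕ × Finset (ℕ × List Bool) × Finset ℕ :=
  (match u with
    | Sum.inl j => p.core.x (Sum.inl j)
    | _ => [],
   match u with
    | Sum.inr (Sum.inl γ) => p.core.g γ
    | _ => [],
   match u with
    | Sum.inr (Sum.inr t) => (p.core.hx.preimage (f := fun n : ℕ => (Sum.inr (t, n) : Ix))
        (fun _ _ _ _ h => (Prod.mk.inj (Sum.inr.inj h)).2)).toFinset.image
          fun n => (n, p.core.x (Sum.inr (t, n)))
    | _ => ∅,
   match u, v with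
    | Sum.inr (Sum.inr t), Sum.inl j => (p.core.hz.preimage
        (f := fun n : ℕ => ((Sum.inr (t, n), j) : Ix × Om))
        (fun _ _ _ _ h => (Prod.mk.inj (Sum.inr.inj (Prod.mk.inj h).1)).2)).toFinset
    | _, _ => ∅)

theorem dat_x {p q : Pre} {j : Om} {v : Om ⊕ (Om ⊕ Tk)}
    (h : dat p (Sum.inl j) v = dat q (Sum.inl j) v) :
    p.core.x (Sum.inl j) = q.core.x (Sum.inl j) :=
  (Prod.mk.inj h).1

theorem dat_g {p q : Pre} {γ : Om} {v : Om ⊕ (Om ⊕ Tk)}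
    (h : dat p (Sum.inr (Sum.inl γ)) v = dat q (Sum.inr (Sum.inl γ)) v) :
    p.core.g γ = q.core.g γ :=
  (Prod.mk.inj (Prod.mk.inj h).2).1

theorem dat_t_aux {p q : Pre} {t : Tk} {v : Om ⊕ (Om ⊕ Tk)}
    (h : dat p (Sum.inr (Sum.inr t)) v = dat q (Sum.inr (Sum.inr t)) v) (n : ℕ)
    (hn : p.core.x (Sum.inr (t, n)) ≠ []) :
    p.core.x (Sum.inr (t, n)) = q.core.x (Sum.inr (t, n)) := by
  classical
  have h1 := (Prod.mk.inj (Prod.mk.inj (Prod.mk.inj h).2).2).1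
  have h2 := congrArg (fun s : Finset (ℕ × List Bool) => (n, p.core.x (Sum.inr (t, n))) ∈ s) h1
  simp only [Finset.mem_image, Set.Finite.mem_toFinset, eq_iff_iff] at h2
  obtain ⟨m, -, hm⟩ := h2.1 ⟨n, hn, rfl⟩
  obtain ⟨h3, h4⟩ := Prod.mk.inj hm
  subst h3
  exact h4.symm

theorem dat_t {p q : Pre} {t : Tk} {v : Om ⊕ (Om ⊕ Tk)}
    (h : dat p (Sum.inr (Sum.inr t)) v = dat q (Sum.inr (Sum.inr t)) v) (n : ℕ) :
    p.core.x (Sum.inr (t, n)) = q.core.x (Sum.inr (t, n)) := by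
  by_cases h1 : p.core.x (Sum.inr (t, n)) = []
  · by_cases h2 : q.core.x (Sum.inr (t, n)) = []
    · rw [h1, h2]
    · exact (dat_t_aux h.symm n h2).symm
  · exact dat_t_aux h n h1

theorem dat_z {p q : Pre} {t : Tk} {j : Om}
    (h : dat p (Sum.inr (Sum.inr t)) (Sum.inl j) = dat q (Sum.inr (Sum.inr t)) (Sum.inl j))
    (n : ℕ) : (Sum.inr (t, n), j) ∈ p.core.z ↔ (Sum.inr (t, n), j) ∈ q.core.z := by
  have h1 := (Prod.mk.inj (Prod.mk.inj (Prod.mk.inj h).2).2).2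
  have h2 := congrArg (fun s : Finset ℕ => n ∈ s) h1
  simp only [Set.Finite.mem_toFinset, eq_iff_iff] at h2
  exact h2

theorem cd_ccc : Pool.Agent.W876.Two.Gen.Ccc Cd := by
  classical
  intro Y f hY
  choose TT YY GG hsup using fun y => exists_sup (f y).1
  have hY' : ¬ (univ : Set Y).Countable := fun h => hY (countable_univ_iff.1 h)
  obtain ⟨J, R, -, hJ, hR, hroot⟩ := Pool.Agent.Helper126.delta_system
    (fun y => (YY y).disjSum ((GG y).disjSum (TT y))) univ hY'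
  let D : Y → (R × R → List Bool × List ℕ × Finset (ℕ × List Bool) × Finset ℕ) :=
    fun y uv => dat (f y).1 uv.1.1 uv.2.1
  obtain ⟨c, hc⟩ := Pool.Agent.Helper126.uncountable_fiber D J hJ
  have hnt : {y ∈ J | D y = c}.Nontrivial := by
    by_contra hcon
    rw [Set.not_nontrivial_iff] at hcon
    exact hc hcon.finite.countable
  obtain ⟨y, ⟨hyJ, hyc⟩, y', ⟨hyJ', hyc'⟩, hne⟩ := hnt
  have hD : ∀ u ∈ R, ∀ v ∈ R, dat (f y).1 u v = dat (f y').1 u v := by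
    intro u hu v hv
    exact congrFun (hyc.trans hyc'.symm) (⟨u, hu⟩, ⟨v, hv⟩)
  have hRj : ∀ j, j ∈ YY y → j ∈ YY y' → (Sum.inl j : Om ⊕ (Om ⊕ Tk)) ∈ R := fun j h1 h2 =>
    hroot y hyJ y' hyJ' hne _ (by simpa using h1) (by simpa using h2)
  have hRg : ∀ j, j ∈ GG y → j ∈ GG y' → (Sum.inr (Sum.inl j) : Om ⊕ (Om ⊕ Tk)) ∈ R :=
    fun j h1 h2 => hroot y hyJ y' hyJ' hne _ (by simpa using h1) (by simpa using h2)
  have hRt : ∀ t, t ∈ TT y → t ∈ TT y' → (Sum.inr (Sum.inr t) : Om ⊕ (Om ⊕ Tk)) ∈ R :=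
    fun j h1 h2 => hroot y hyJ y' hyJ' hne _ (by simpa using h1) (by simpa using h2)
  obtain ⟨u, hu1, hu2, hu3⟩ := exists_union (f y).2 (f y').2 (hsup y) (hsup y') (by
      rintro (j | ⟨t, n⟩) h1 h2
      · have hj := hRj j h1 h2
        exact dat_x (hD _ hj _ hj)
      · have ht := hRt t h1 h2
        exact dat_t (hD _ ht _ ht) n) (by
      rintro γ ⟨h1, h2⟩
      have hγ := hRg γ h1 h2
      exact dat_g (hD _ hγ _ hγ)) (by
      rintro t ⟨h1, h2⟩ j ⟨h3, h4⟩ n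
      exact dat_z (hD _ (hRt t h1 h2) _ (hRj j h3 h4)) n)
  exact ⟨y, y', hne, ⟨u, hu1⟩, hu2, hu3⟩

end Pool.Agent.W876.Sel
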