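import Mathlib
import Pool.Agent.W876.Sel.Ccc
import Pool.Agent.W876.Sel.Lang

/-!
# The family is selectively (a) and the dominating number is `ℵ₁`
-/

namespace Pool.Agent.W876.Sel

open Cardinal Set Pool.Agent.Helper126.Sus.Forc

open Pool.Agent.W876.Two.Gen

/-- a condition -/
def mkCd (r : Pre) (h : Good r) : Cd := ⟨r, h⟩

@[simp] theorem mkCd_val (r : Pre) (h : Good r) : (mkCd r h).1 = r := rfl

/-- the names of the members of the family -/
def AN (j : Om) (k : ℕ) : Set Cd := {p | On (p.1.core.x (Sum.inl j)) k}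

/-- the names of the sets added for the tasks -/
def PN (t : Tk) (n k : ℕ) : Set Cd := {p | On (p.1.core.x (Sum.inr (t, n))) k}

/-- the names of the dominating functions -/
def GN (β : Om) (n v : ℕ) : Set Cd := {p | (p.1.core.g β)[n]? = some v}

theorem an_down {j : Om} {k : ℕ} : ∀ p ∈ AN j k, ∀ q ≤ p, q ∈ AN j k := fun _ hp _ hq =>
  on_mono ((le_iff.1 (cd_le.1 hq)).1.x _) hp

theorem pn_down {t : Tk} {n k : ℕ} : ∀ p ∈ PN t n k, ∀ q ≤ p, q ∈ PN t n k := fun _ hp _ hq =>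
  on_mono ((le_iff.1 (cd_le.1 hq)).1.x _) hp

theorem gn_down {β : Om} {n k : ℕ} : ∀ p ∈ GN β n k, ∀ q ≤ p, q ∈ GN β n k := fun _ hp _ hq =>
  get_mono ((le_iff.1 (cd_le.1 hq)).1.g _) hp

theorem isInfinite_an (j : Om) (p : Cd) : p ∈ IsInfinite (AN j) := by
  intro m
  rw [mem_fex]
  intro q _
  obtain ⟨r, k, h1, h2, h3, h4⟩ := exists_on q.2 (Sum.inl j) m
  exact ⟨mkCd r h1, h2, k, h3, meets_of_mem h4⟩

theorem isAD_an {K : Type} {e : K → Om} (he : Function.Injective e) (p : Cd) :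
    p ∈ IsAD fun j => AN (e j) := by
  refine ⟨fun j => isInfinite_an (e j) p, fun i j hij => ?_⟩
  unfold FiniteMeet
  rw [mem_fex]
  intro q _
  obtain ⟨r, h1, h2, h3⟩ := exists_z_inl q.2 (e i) (e j)
  refine ⟨mkCd r h1, h2, (r.core.x (Sum.inl (e i))).length, fun n => ?_⟩
  rw [mem_fimp]
  rintro s hs ⟨h4, h5⟩
  obtain ⟨s1, hs1, h6⟩ := exists_of_meets an_down h4
  obtain ⟨s2, hs2, h7⟩ := exists_of_meets an_down (meets_down h5 hs1)
  have h8 : Le s2.1 r := le_trans' (cd_le.1 (hs2.trans hs1)) (cd_le.1 hs)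
  have h9 := (le_iff.1 h8).1.fr (Sum.inl (e i)) (e j) (fun h => hij (he (Sum.inl.inj h))) h3 n
    (an_down _ h6 _ hs2) h7
  exact ⟨s, le_rfl, on_lt h9.1⟩

theorem isFun_gn (β : Om) (p : Cd) : p ∈ IsFun (GN β) := by
  refine ⟨fun n => ?_, fun n a b => ?_⟩
  · rw [mem_fex]
    intro q _
    obtain ⟨r, v, h1, h2, h3⟩ := exists_val β n q.2
    exact ⟨mkCd r h1, h2, v, meets_of_mem h3⟩
  · rw [mem_fimp]
    rintro s hs ⟨h4, h5⟩
    obtain ⟨s1, hs1, h6⟩ := exists_of_meets gn_down h4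
    obtain ⟨s2, hs2, h7⟩ := exists_of_meets gn_down (meets_down h5 hs1)
    have h8 := gn_down _ h6 _ hs2
    refine ⟨s, le_rfl, ?_⟩
    change (s2.1.core.g β)[n]? = some a at h8
    change (s2.1.core.g β)[n]? = some b at h7
    rw [h7] at h8
    exact (Option.some.inj h8).symm

/-- the domination lemma -/
theorem exists_dom (φ : ℕ → ℕ → Set Cd) (hdown : ∀ n m, ∀ p ∈ φ n m, ∀ q ≤ p, q ∈ φ n m)
    (hmono : ∀ n m m', m ≤ m' → φ n m ⊆ φ n m') {p0 : Cd}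
    (h : ∀ n, ∀ q ≤ p0, ∃ r ≤ q, ∃ m, r ∈ φ n m) :
    ∃ β : Om, ∀ q ≤ p0, ∃ r ≤ q, ∀ n v, ∀ s ≤ r, (r.1.core.g β).length ≤ n → s ∈ GN β n v →
      s ∈ φ n v := by
  classical
  let D : ℕ → Set Cd := fun n => {q | (q ≤ p0 ∧ ∃ m, q ∈ φ n m) ∨ ¬ ∃ s, s ≤ q ∧ s ≤ p0}
  have hD : ∀ n (q : Cd), ∃ r ≤ q, r ∈ D n := by
    intro n q
    by_cases hq : ∃ s, s ≤ q ∧ s ≤ p0
    · obtain ⟨s, hs1, hs2⟩ := hq
      obtain ⟨r, hr, m, hm⟩ := h n s hs2
      exact ⟨r, hr.trans hs1, Or.inl ⟨hr.trans hs2, m, hm⟩⟩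
    · exact ⟨q, le_rfl, Or.inr hq⟩
  choose A hA1 hA2 hA3 using fun n => exists_antichain cd_ccc (D n)
  have hne : ∀ n, (A n).Nonempty := by
    intro n
    obtain ⟨r, -, hr⟩ := hD n p0
    obtain ⟨a, ha, -⟩ := hA3 n r hr
    exact ⟨a, ha⟩
  choose c hc using fun n => (hA2 n).exists_eq_range (hne n)
  have hcD : ∀ n l, c n l ∈ D n := fun n l => hA1 n (by
    rw [hc n]
    exact ⟨l, rfl⟩)
  let m : ℕ → ℕ → ℕ := fun n l => if h : ∃ m, c n l ∈ φ n m then h.choose else 0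
  have hm : ∀ n l, c n l ≤ p0 → c n l ∈ φ n (m n l) := by
    intro n l hle
    have h1 : ∃ m, c n l ∈ φ n m := by
      rcases hcD n l with h1 | h1
      · exact h1.2
      · exact absurd ⟨_, le_rfl, hle⟩ h1
    change c n l ∈ φ n (if h : ∃ m, c n l ∈ φ n m then h.choose else 0)
    rw [dif_pos h1]
    exact h1.choose_spec
  obtain ⟨β, hβ⟩ := exists_tot (fun n l => (c n l).1) (fun n l => (c n l).2) (by
    intro n p hp
    obtain ⟨r, hr, hrD⟩ := hD n (mkCd p hp)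
    obtain ⟨a, ha, s, hs1, hs2⟩ := hA3 n r hrD
    rw [hc n] at ha
    obtain ⟨l, rfl⟩ := ha
    exact ⟨l, s.1, s.2, hs2.trans hr, hs1⟩)
  refine ⟨β, fun q hq => ?_⟩
  obtain ⟨r, h1, h2, h3⟩ := exists_promise q.2 (x := ⟨β, fun n l => (c n l).1, m⟩) hβ
  refine ⟨mkCd r h1, h2, fun n v s hs hn hv => ?_⟩
  obtain ⟨l, h4, h5⟩ := ((le_iff.1 (cd_le.1 hs)).2 _ h3).2 n v hn hv
  have h6 : s ≤ c n l := h4
  have h7 : s ≤ p0 := hs.trans (show mkCd r h1 ≤ p0 from le_trans' h2 (cd_le.1 hq))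
  apply hmono n _ _ h5
  rcases hcD n l with h8 | h8
  · exact hdown n _ _ (hm n l h8.1) _ h6
  · exact absurd ⟨s, h6, h7⟩ h8

theorem isDominating_gn (p : Cd) : p ∈ IsDominating GN := by
  refine ⟨fun β => isFun_gn β p, fun f => ?_⟩
  rw [mem_fimp]
  intro q _ hf
  refine ⟨q, le_rfl, ?_⟩
  obtain ⟨β, hβ⟩ := exists_dom (fun n m => {s | ∀ u ≤ s, ∀ a, u ∈ meets (f n a) → a ≤ m})
    (fun n m s hs s' hs' u hu a ha => hs u (hu.trans hs') a ha)
    (fun n m m' h s hs u hu a ha => (hs u hu a ha).trans h) (p0 := q) (by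
      intro n s hs
      obtain ⟨r, hr, a, ha⟩ := mem_fex.1 (hf.1 n) s hs
      refine ⟨r, hr, a, fun u hu b hb => ?_⟩
      obtain ⟨_, _, h1⟩ := mem_fimp.1 (hf.2 n a b) u (hu.trans (hr.trans hs))
        ⟨meets_down ha hu, hb⟩
      exact (show a = b from h1).ge)
  rw [mem_fex]
  intro q' hq'
  obtain ⟨r, hr, h1⟩ := hβ q' hq'
  refine ⟨r, hr, β, ?_⟩
  rw [mem_fex]
  intro r' hr'
  refine ⟨r', le_rfl, (r.1.core.g β).length, fun n a b => ?_⟩
  rw [mem_fimp]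
  rintro s hs ⟨h2, h3, h4⟩
  obtain ⟨s1, hs1, h5⟩ := exists_of_meets gn_down h4
  refine ⟨s, le_rfl, ?_⟩
  exact h1 n b s1 (hs1.trans (hs.trans hr')) h2 h5 s1 le_rfl a (meets_down h3 hs1)

theorem mem_meets_univ {p : Cd} {N : Set Cd} (h : ∀ q, q ∈ N) : p ∈ meets N := meets_of_mem (h p)

theorem not_meets_empty {p : Cd} {N : Set Cd} (h : ∀ q, q ∉ N) : p ∉ meets N := by
  intro hp
  obtain ⟨_, _, s, hs, _⟩ := hp p le_rfl
  exact h s hs

/-- the name of the closed discrete sets -/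
def FN (K : Type) (t : Tk) (n : ℕ) : ℕ ⊕ K → Set Cd
  | Sum.inl k => {s | s ∈ PN t n k ∨ k = n}
  | Sum.inr _ => ∅

theorem fn_down {K : Type} {t : Tk} {n : ℕ} {x : ℕ ⊕ K} :
    ∀ p ∈ FN K t n x, ∀ q ≤ p, q ∈ FN K t n x := by
  intro p hp q hq
  rcases x with k | j
  · rcases hp with hp | hp
    · exact Or.inl (pn_down p hp q hq)
    · exact Or.inr hp
  · exact hp

/-- a set of isolated points with one element -/
theorem open_single {K : Type} (e : K → Om) (k : ℕ) (p : Cd) :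
    p ∈ IsOpenPsi (fun j => AN (e j)) fun x : ℕ ⊕ K => {_s | x = Sum.inl k} := by
  intro j
  rw [mem_fimp]
  intro q _ h
  exact absurd h (not_meets_empty fun q h => absurd h (by simp))

theorem closed_fn {K : Type} (e : K → Om) (t : Tk) (n : ℕ) (p : Cd) :
    p ∈ IsClosedPsi (fun j => AN (e j)) (FN K t n) := by
  intro j
  rw [mem_fimp]
  intro q _ _
  refine ⟨q, le_rfl, ?_⟩
  rw [mem_fex]
  intro q' _
  obtain ⟨r, h1, h2, h3⟩ := exists_z_inr q'.2 t n (e j)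
  refine ⟨mkCd r h1, h2, max (n + 1) (r.core.x (Sum.inl (e j))).length, fun k => ?_⟩
  rw [mem_fimp]
  rintro s hs ⟨h4, h5⟩
  refine ⟨s, le_rfl, meets_of_mem ?_⟩
  intro u hu hmeet
  have h4' : max (n + 1) (r.core.x (Sum.inl (e j))).length ≤ k := h4
  obtain ⟨u1, hu1, h6⟩ := exists_of_meets fn_down hmeet
  obtain ⟨u2, hu2, h7⟩ := exists_of_meets an_down (meets_down h5 (hu1.trans hu))
  rcases h6 with h6 | h6
  · have h8 : Le u2.1 r := cd_le.1 ((hu2.trans (hu1.trans hu)).trans hs)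
    have h9 := (le_iff.1 h8).1.fr (Sum.inr (t, n)) (e j) (by simp) h3 k (pn_down _ h6 _ hu2) h7
    have := on_lt h9.2
    omega
  · omega

theorem discrete_fn {K : Type} (e : K → Om) (t : Tk) (n : ℕ) (p : Cd) :
    p ∈ IsDiscretePsi (fun j => AN (e j)) (FN K t n) := by
  intro x
  rw [mem_fimp]
  intro q _ hq
  refine ⟨q, le_rfl, ?_⟩
  rcases x with k | j
  · rw [mem_fex]
    intro q' _
    refine ⟨q', le_rfl, fun y => {_s | y = Sum.inl k}, open_single e k q',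
      mem_meets_univ fun _ => rfl, fun y => ?_⟩
    rw [mem_fimp]
    rintro s _ ⟨h1, -⟩
    by_cases hy : y = Sum.inl k
    · exact ⟨s, le_rfl, hy⟩
    · exact absurd h1 (not_meets_empty fun _ h => hy h)
  · exact absurd hq (not_meets_empty fun _ h => h)

theorem selectivelyA_an {K : Type} {e : K → Om} (he : Function.Injective e) (p : Cd) :
    p ∈ SelectivelyA fun j => AN (e j) := by
  intro ι U D
  rw [mem_fimp]
  rintro q _ ⟨hU, hD⟩
  refine ⟨q, le_rfl, ?_⟩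
  -- the functions attached to the members of the family
  have hdom : ∀ j : K, ∃ β : Om, ∀ q' ≤ q, ∃ r ≤ q', ∀ n v, ∀ s ≤ r,
      (r.1.core.g β).length ≤ n → s ∈ GN β n v →
        ∃ i, s ∈ meets (U n i (Sum.inr j)) ∧ ∀ k, v ≤ k → ∀ s' ≤ s, s' ∈ meets (AN (e j) k) →
          s' ∈ meets (U n i (Sum.inl k)) := by
    intro j
    refine exists_dom (fun n m => {s | ∃ i, s ∈ meets (U n i (Sum.inr j)) ∧ ∀ k, m ≤ k →
      ∀ s' ≤ s, s' ∈ meets (AN (e j) k) → s' ∈ meets (U n i (Sum.inl k))}) ?_ ?_ ?_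
    · rintro n m s ⟨i, h1, h2⟩ s' hs'
      exact ⟨i, meets_down h1 hs', fun k hk s'' hs'' h => h2 k hk s'' (hs''.trans hs') h⟩
    · rintro n m m' hm s ⟨i, h1, h2⟩
      exact ⟨i, h1, fun k hk => h2 k (hm.trans hk)⟩
    · intro n s hs
      obtain ⟨r, hr, i, hi⟩ := mem_fex.1 ((hU n).2 (Sum.inr j)) s hs
      obtain ⟨r1, hr1, h1⟩ := mem_fimp.1 ((hU n).1 i j) r (hr.trans hs) hi
      obtain ⟨r2, hr2, m, h2⟩ := mem_fex.1 h1 r1 le_rfl
      refine ⟨r2, hr2.trans (hr1.trans hr), m, i, meets_down hi (hr2.trans hr1),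
        fun k hk s' hs' h => ?_⟩
      apply meets_of_dense
      intro u hu
      exact mem_fimp.1 (h2 k) u (hu.trans hs') ⟨hk, meets_down h hu⟩
  choose β hβ using hdom
  obtain ⟨z0⟩ : Nonempty Om := by
    rw [← mk_ne_zero_iff, mk_Om]
    exact (aleph0_pos.trans_le (aleph0_le_aleph 1)).ne'
  obtain ⟨t, ht⟩ : ∃ t : Tk, ∀ j, t.1 (e j) = β j :=
    ⟨(Function.extend e β fun _ => z0, z0), fun j => he.extend_apply β (fun _ => z0) j⟩
  rw [mem_fex]
  intro q' hq'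
  refine ⟨q', le_rfl, FN K t, fun n x => ?_, fun n => ⟨closed_fn e t n q', discrete_fn e t n q'⟩,
    fun y => ?_⟩
  · rw [mem_fimp]
    intro s hs hx
    rcases x with k | j
    · obtain ⟨s1, hs1, h1⟩ := mem_fimp.1 (hD fun x => {_s | x = Sum.inl k}) s (hs.trans hq')
        ⟨open_single e k s, mem_fex.2 fun u _ => ⟨u, le_rfl, Sum.inl k,
          mem_meets_univ fun _ => rfl⟩⟩
      obtain ⟨s2, hs2, y, h2, h3⟩ := mem_fex.1 h1 s1 le_rfl
      by_cases hy : y = Sum.inl k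
      · subst hy
        exact ⟨s2, hs2.trans hs1, h3⟩
      · exact absurd h2 (not_meets_empty fun _ h => hy h)
    · exact absurd hx (not_meets_empty fun _ h => h)
  · rw [mem_fex]
    intro s hs
    rcases y with k | j
    · refine ⟨s, le_rfl, k, ?_⟩
      rw [mem_fex]
      intro s' hs'
      obtain ⟨s1, hs1, i, hi⟩ := mem_fex.1 ((hU k).2 (Sum.inl k)) s' (hs'.trans (hs.trans hq'))
      refine ⟨s1, hs1, i, hi, ?_⟩
      rw [mem_fex]
      intro s2 hs2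
      exact ⟨s2, le_rfl, Sum.inl k, mem_meets_univ fun _ => Or.inr rfl, meets_down hi hs2⟩
    · obtain ⟨r, hr, h1⟩ := hβ j s (hs.trans hq')
      obtain ⟨r1, h2, h3, h4⟩ := exists_ac r.2 t (e j)
      have hfin : {n : ℕ | (Sum.inr (t, n), e j) ∈ r1.core.z}.Finite :=
        r1.core.hz.preimage (f := fun n : ℕ => ((Sum.inr (t, n), e j) : Ix × Om))
          (fun _ _ _ _ h => (Prod.mk.inj (Sum.inr.inj (Prod.mk.inj h).1)).2)
      obtain ⟨n, hn⟩ := (hfin.union (Set.finite_Iio (r.1.core.g (β j)).length)).infinite_compl.nonempty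
      rw [mem_compl_iff, mem_union, not_or] at hn
      obtain ⟨s1, h5, h6, h7⟩ := exists_z_inr h2 t n (e j)
      obtain ⟨k, v, h8, h9, h10, h11⟩ := (le_iff.1 h6).1.rq t (e j) h4 n h7 hn.1
      rw [ht] at h10
      have hs1 : mkCd s1 h5 ≤ r := le_trans' h6 h3
      obtain ⟨i, h12, h13⟩ := h1 n v (mkCd s1 h5) hs1 (not_lt.1 hn.2) h10
      refine ⟨mkCd s1 h5, hs1.trans hr, n, ?_⟩
      rw [mem_fex]
      intro u hu
      refine ⟨u, le_rfl, i, meets_down h12 hu, ?_⟩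
      rw [mem_fex]
      intro u' hu'
      refine ⟨u', le_rfl, Sum.inl k, ?_, ?_⟩
      · exact meets_of_le (s := mkCd s1 h5) (Or.inl h8) (hu'.trans hu)
      · exact h13 k h11 u' (hu'.trans hu) (meets_of_le (s := mkCd s1 h5) h9 (hu'.trans hu))

theorem exists_forcing : ∃ (P : Type) (_ : Preorder P), Nonempty P ∧ CCC P ∧ ∀ p : P,
    p ∈ CardinalsPreserved P ∧
    (p ∈ fex fun g : K1 → ℕ → ℕ → Set P => IsDominating g) ∧
    ∀ K : Type, #K ≤ ℵ_ 1 →
      p ∈ fex fun A : K → ℕ → Set P => fand (IsAD A) (SelectivelyA A) := by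
  refine ⟨Cd, inferInstance, ?_, CCC_of cd_ccc, fun p => ⟨cardinalsPreserved cd_ccc p, ?_, ?_⟩⟩
  · obtain ⟨p, -, h⟩ := exists_pre ⟨fun _ => [], fun _ => [], ∅, ∅, by simp, by simp, by simp,
      by simp⟩ ∅ finite_empty
    refine ⟨⟨p, fun x hx => ?_⟩⟩
    rw [h] at hx
    exact absurd hx (notMem_empty _)
  · exact mem_fex.2 fun q _ => ⟨q, le_rfl, GN, isDominating_gn q⟩
  · intro K hK
    rw [← mk_Om, Cardinal.le_def] at hK
    obtain ⟨e⟩ := hK
    exact mem_fex.2 fun q _ => ⟨q, le_rfl, fun j => AN (e j), isAD_an e.injective q,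
      selectivelyA_an e.injective q⟩

end Pool.Agent.W876.Sel
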